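import Pool.Agent.X209.NB.Lab

/-!
# Defects and residues
-/

open scoped Classical BigOperators
open Pool.Agent.Y63.KR Pool.Agent.Helper884.IC Pool.Agent.Y63.AWC
open Pool.Agent.X209.PJ Pool.Agent.X209.CC

set_option linter.unusedSectionVars false
set_option linter.unusedVariables false

noncomputable section

namespace Pool.Agent.X209.NB

section arith

variable {p : ℕ}

/-- The positive integer `n` has `p`-part `p ^ d` and the residue modulo `p` of its `p'`-part is in
the class `r U`. -/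
def InClass (p : ℕ) (U : Subgroup (ZMod p)ˣ) (d : ℕ) (r : (ZMod p)ˣ) (n : ℕ) : Prop :=
  0 < n ∧ n.factorization p = d ∧
    ∃ u ∈ U, ((n / p ^ n.factorization p : ℕ) : ZMod p) = ((r * u : (ZMod p)ˣ) : ZMod p)

/-- the residue of the `p'`-part -/
def res (p : ℕ) [hp : Fact p.Prime] (n : ℕ) (hn : n ≠ 0) : (ZMod p)ˣ :=
  ZMod.unitOfCoprime (n / p ^ n.factorization p)
    ((Nat.coprime_ordCompl hp.out hn).symm)

lemma res_val [hp : Fact p.Prime] (n : ℕ) (hn : n ≠ 0) :
    ((res p n hn : (ZMod p)ˣ) : ZMod p) = ((n / p ^ n.factorization p : ℕ) : ZMod p) := rfl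

lemma res_mul [hp : Fact p.Prime] {m n : ℕ} (hm : m ≠ 0) (hn : n ≠ 0) :
    res p (m * n) (mul_ne_zero hm hn) = res p m hm * res p n hn := by
  apply Units.ext
  rw [Units.val_mul, res_val, res_val, res_val, ← Nat.cast_mul, Nat.ordCompl_mul]

lemma inClass_iff [hp : Fact p.Prime] (U : Subgroup (ZMod p)ˣ) (d : ℕ) (r : (ZMod p)ˣ) {n : ℕ}
    (hn : n ≠ 0) : InClass p U d r n ↔ n.factorization p = d ∧ r⁻¹ * res p n hn ∈ U := by
  unfold InClass
  constructor
  · rintro ⟨_, h1, u, hu, h2⟩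
    refine ⟨h1, ?_⟩
    rw [← res_val n hn] at h2
    rw [Units.ext h2, inv_mul_cancel_left]
    exact hu
  · rintro ⟨h1, h2⟩
    refine ⟨Nat.pos_of_ne_zero hn, h1, _, h2, ?_⟩
    rw [mul_inv_cancel_left, res_val]

lemma inClass_mul [hp : Fact p.Prime] (U : Subgroup (ZMod p)ˣ) (d : ℕ) (r : (ZMod p)ˣ) {m n : ℕ}
    (hm : m ≠ 0) (hn : n ≠ 0) :
    InClass p U (d + m.factorization p) (r * res p m hm) (m * n) ↔ InClass p U d r n := by
  rw [inClass_iff U _ _ (mul_ne_zero hm hn), inClass_iff U _ _ hn, res_mul hm hn,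
    Nat.factorization_mul hm hn, Finsupp.add_apply]
  refine and_congr ?_ ?_
  · omega
  · rw [mul_inv, mul_assoc, inv_mul_cancel_left]

lemma inClass_top [hp : Fact p.Prime] (d : ℕ) (r : (ZMod p)ˣ) {n : ℕ} (hn : n ≠ 0) :
    InClass p ⊤ d r n ↔ n.factorization p = d := by
  rw [inClass_iff ⊤ _ _ hn]
  simp

end arith

variable {p : ℕ}

/-- The character `χ` of `H` has defect `d`, and `(|H| / χ(1))_{p'}` is modulo `p` in `r U`. -/
def HasClass (p : ℕ) (U : Subgroup (ZMod p)ˣ) (d : ℕ) (r : (ZMod p)ˣ) {H : Type} [Group H]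
    (χ : H → ℂ) : Prop :=
  ∃ m n : ℕ, χ 1 = (m : ℂ) ∧ Nat.card H = m * n ∧ InClass p U d r n

/-- the values of `|H| / χ(1)` -/
def TU (p : ℕ) (U : Subgroup (ZMod p)ˣ) (d : ℕ) (r : (ZMod p)ˣ) : Set ℂ :=
  {c | ∃ n : ℕ, c = (n : ℂ) ∧ InClass p U d r n}

lemma exists_quot {H : Type} [Group H] [Finite H] {χ : H → ℂ} (h : IsIrrChar χ) :
    ∃ m n : ℕ, m ≠ 0 ∧ n ≠ 0 ∧ χ 1 = (m : ℂ) ∧ Nat.card H = m * n ∧
      (Nat.card H : ℂ) / χ 1 = (n : ℂ) := by
  obtain ⟨m, hm0, hm⟩ := deg_nat h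
  obtain ⟨n, hn⟩ : m ∣ Nat.card H := by
    have : Fintype H := Fintype.ofFinite H
    exact deg_dvd h hm
  have hH : Nat.card H ≠ 0 := Nat.card_pos.ne'
  have hn0 : n ≠ 0 := by
    rintro rfl
    exact hH (by rw [hn, mul_zero])
  have hmC : (m : ℂ) ≠ 0 := by exact_mod_cast hm0.ne'
  refine ⟨m, n, hm0.ne', hn0, hm, hn, ?_⟩
  rw [hm, hn]
  push_cast
  field_simp

lemma ratio_class {H : Type} [Group H] [Finite H] {χ : H → ℂ} (h : IsIrrChar χ)
    (U : Subgroup (ZMod p)ˣ) (d : ℕ) (r : (ZMod p)ˣ) :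
    Ratio (TU p U d r) χ ↔ HasClass p U d r χ := by
  obtain ⟨m, n, hm0, hn0, hm, hn, hq⟩ := exists_quot h
  unfold Ratio HasClass
  rw [hq]
  constructor
  · rintro ⟨k, hk, hkd⟩
    have h1 : n = k := by exact_mod_cast hk
    exact ⟨m, n, hm, hn, by rw [h1]; exact hkd⟩
  · rintro ⟨m', n', hm', hn', hd⟩
    have h1 : m = m' := by
      rw [hm] at hm'
      exact_mod_cast hm'
    have h2 : n = n' := by
      rw [← h1, hn] at hn'
      exact Nat.eq_of_mul_eq_mul_left (Nat.pos_of_ne_zero hm0) hn'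
    exact ⟨n, rfl, by rw [h2]; exact hd⟩

lemma class_top [hp : Fact p.Prime] {H : Type} [Group H] [Finite H] {χ : H → ℂ}
    (h : IsIrrChar χ) (d : ℕ) (r : (ZMod p)ˣ) : HasClass p ⊤ d r χ ↔ HasDefect p d χ := by
  obtain ⟨m, n, hm0, hn0, hm, hn, hq⟩ := exists_quot h
  have hf : (Nat.card H).factorization p = m.factorization p + n.factorization p := by
    rw [hn, Nat.factorization_mul hm0 hn0, Finsupp.add_apply]
  constructor
  · rintro ⟨m', n', hm', hn', hd⟩
    have h1 : m = m' := by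
      rw [hm] at hm'
      exact_mod_cast hm'
    have h2 : n = n' := by
      rw [← h1, hn] at hn'
      exact Nat.eq_of_mul_eq_mul_left (Nat.pos_of_ne_zero hm0) hn'
    rw [← h2, inClass_top d r hn0] at hd
    exact ⟨m, hm, by rw [hf, hd]⟩
  · rintro ⟨m', hm', hd⟩
    have h1 : m = m' := by
      rw [hm] at hm'
      exact_mod_cast hm'
    rw [← h1, hf] at hd
    exact ⟨m, n, hm, hn, (inClass_top d r hn0).mpr (by omega)⟩

section

variable {G : Type} [Group G] [Finite G] {A Z : Subgroup G}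

/-- the number of the irreducible characters of `H` of the class -/
def kOrdU (p : ℕ) (U : Subgroup (ZMod p)ˣ) (d : ℕ) (r : (ZMod p)ˣ) (H : Subgroup G) : ℕ :=
  Nat.card {χ : H → ℂ // IsIrrChar χ ∧ HasClass p U d r χ}

/-- the number of the irreducible characters of `H` of the class over `lam` -/
def kProjU (p : ℕ) (U : Subgroup (ZMod p)ˣ) (lam : Z →* ℂˣ) (d : ℕ) (r : (ZMod p)ˣ)
    (H : Subgroup G) : ℕ :=
  Nat.card {χ : H → ℂ // IsIrrChar χ ∧ Over lam χ ∧ HasClass p U d r χ}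

lemma kProjU_eq (U : Subgroup (ZMod p)ˣ) (lam : Z →* ℂˣ) (d : ℕ) (r : (ZMod p)ˣ) :
    (fun H : Subgroup G => (kProjU p U lam d r H : ℤ)) =
      fun H => (kLam (TU p U d r) lam H : ℤ) := by
  funext H
  unfold kProjU kLam
  congr 1
  refine Nat.card_congr (Equiv.subtypeEquivRight fun χ => ?_)
  constructor
  · rintro ⟨h1, h2, h3⟩
    exact ⟨h1, h2, (ratio_class h1 U d r).mpr h3⟩
  · rintro ⟨h1, h2, h3⟩
    exact ⟨h1, h2, (ratio_class h1 U d r).mp h3⟩

lemma kOrdU_eq (U : Subgroup (ZMod p)ˣ) (d : ℕ) (r : (ZMod p)ˣ) :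
    (fun H : Subgroup G => (kOrdU p U d r H : ℤ)) = fun H => (kRat (TU p U d r) H : ℤ) := by
  funext H
  unfold kOrdU kRat
  congr 1
  refine Nat.card_congr (Equiv.subtypeEquivRight fun χ => ?_)
  constructor
  · rintro ⟨h1, h3⟩
    exact ⟨h1, (ratio_class h1 U d r).mpr h3⟩
  · rintro ⟨h1, h3⟩
    exact ⟨h1, (ratio_class h1 U d r).mp h3⟩

/-- only the positive integers matter -/
lemma kRat_congr {T T' : Set ℂ} (h : ∀ n : ℕ, n ≠ 0 → ((n : ℂ) ∈ T ↔ (n : ℂ) ∈ T')) :
    (fun H : Subgroup G => (kRat T H : ℤ)) = fun H => (kRat T' H : ℤ) := by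
  funext H
  unfold kRat
  congr 1
  refine Nat.card_congr (Equiv.subtypeEquivRight fun χ => ?_)
  refine and_congr_right fun h1 => ?_
  obtain ⟨m, n, hm0, hn0, hm, hn, hq⟩ := exists_quot h1
  unfold Ratio
  rw [hq]
  exact h n hn0

lemma scale_TU [hp : Fact p.Prime] (U : Subgroup (ZMod p)ˣ) (d : ℕ) (r : (ZMod p)ˣ) {m : ℕ}
    (hm : m ≠ 0) (n : ℕ) (hn : n ≠ 0) :
    ((n : ℂ) ∈ scale m (TU p U (d + m.factorization p) (r * res p m hm)) ↔
      (n : ℂ) ∈ TU p U d r) := by
  unfold scale TU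
  rw [Set.mem_ofPred_eq, Set.mem_ofPred_eq, Set.mem_ofPred_eq]
  constructor
  · rintro ⟨k, hk, hkd⟩
    have h1 : m * n = k := by exact_mod_cast hk
    rw [← h1, inClass_mul U d r hm hn] at hkd
    exact ⟨n, rfl, hkd⟩
  · rintro ⟨k, hk, hkd⟩
    have h1 : n = k := by exact_mod_cast hk
    rw [← h1, ← inClass_mul U d r hm hn] at hkd
    exact ⟨m * n, by push_cast; ring, hkd⟩

/-- the projective equations -/
def ProjU (p : ℕ) (U : Subgroup (ZMod p)ˣ) {G : Type} [Group G] (Z A : Subgroup G) : Prop :=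
  ∀ (lam : Z →* ℂˣ) (d : ℕ) (r : (ZMod p)ˣ), (Nat.card A).factorization p < d →
    altAbove p A (fun H => (kProjU p U lam d r H : ℤ)) = 0

/-- the ordinary equations -/
def OrdU (p : ℕ) (U : Subgroup (ZMod p)ˣ) {G : Type} [Group G] (A : Subgroup G) : Prop :=
  ∀ (d : ℕ) (r : (ZMod p)ˣ), (Nat.card A).factorization p < d →
    altAbove p A (fun H => (kOrdU p U d r H : ℤ)) = 0

lemma card_A_quot [hp : Fact p.Prime] {G' : Type} [Group G'] [Finite G'] (π : G →* G')
    (hZ : Z ≤ Subgroup.center G) (hS : IsSylowOf p A Z) (hY : π.ker ≤ Z) :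
    (Nat.card A).factorization p = (Nat.card π.ker).factorization p +
      (Nat.card (A.map π)).factorization p := by
  -- `|A ⊔ Y| = |Y| |A.map π|`, and `A ≤ A ⊔ Y ≤ Z`
  have h1 := card_map π (H := A ⊔ π.ker) le_sup_right
  have h2 : (A ⊔ π.ker).map π = A.map π := by
    rw [Subgroup.map_sup, (Subgroup.map_eq_bot_iff _).mpr le_rfl, sup_bot_eq]
  have h3 : (Nat.card (A ⊔ π.ker : Subgroup G)).factorization p =
      (Nat.card A).factorization p := by
    apply le_antisymm
    · rw [hS.card]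
      have h4 : Nat.card (A ⊔ π.ker : Subgroup G) ∣ Nat.card Z :=
        Subgroup.card_dvd_of_le (sup_le hS.le hY)
      exact (Nat.factorization_le_iff_dvd Nat.card_pos.ne' Nat.card_pos.ne').mpr h4 p
    · have h4 : Nat.card A ∣ Nat.card (A ⊔ π.ker : Subgroup G) :=
        Subgroup.card_dvd_of_le le_sup_left
      exact (Nat.factorization_le_iff_dvd Nat.card_pos.ne' Nat.card_pos.ne').mpr h4 p
  rw [← h3, h1, h2, Nat.factorization_mul Nat.card_pos.ne' Nat.card_pos.ne', Finsupp.add_apply]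

/-- **Group by group.** -/
theorem projU_iff [hp : Fact p.Prime] (U : Subgroup (ZMod p)ˣ) (hZ : Z ≤ Subgroup.center G)
    (hS : IsSylowOf p A Z) :
    ProjU p U Z A ↔ ∀ Y : Subgroup G, Y ≤ Z → ∀ _ : Y.Normal,
      OrdU p U (A.map (QuotientGroup.mk' Y)) := by
  have hcard : ∀ (Y : Subgroup G) (hY : Y.Normal), Y ≤ Z →
      (Nat.card A).factorization p = (Nat.card Y).factorization p +
        (Nat.card (A.map (QuotientGroup.mk' Y))).factorization p := by
    intro Y hY hYZ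
    have h := card_A_quot (QuotientGroup.mk' Y) hZ hS (by rw [QuotientGroup.ker_mk']; exact hYZ)
    rwa [QuotientGroup.ker_mk'] at h
  constructor
  · intro h Y hYZ hY d r hd
    have hY0 : Nat.card Y ≠ 0 := Nat.card_pos.ne'
    have h1 := (local_iff hZ hS (TU p U (d + (Nat.card Y).factorization p)
      (r * res p (Nat.card Y) hY0))).mp (fun lam => by
        have h2 := h lam (d + (Nat.card Y).factorization p) (r * res p (Nat.card Y) hY0)
          (by rw [hcard Y hY hYZ]; omega)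
        rw [kProjU_eq] at h2
        exact h2) Y hYZ hY
    rw [kOrdU_eq, ← kRat_congr (scale_TU U d r hY0)]
    exact h1
  · intro h lam d r hd
    rw [kProjU_eq]
    refine (local_iff hZ hS (TU p U d r)).mpr ?_ lam
    intro Y hYZ hY
    have hY0 : Nat.card Y ≠ 0 := Nat.card_pos.ne'
    have hc := hcard Y hY hYZ
    obtain ⟨d', rfl⟩ : ∃ d', d = d' + (Nat.card Y).factorization p :=
      ⟨d - (Nat.card Y).factorization p, by omega⟩
    obtain ⟨r', rfl⟩ : ∃ r', r = r' * res p (Nat.card Y) hY0 :=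
      ⟨r * (res p (Nat.card Y) hY0)⁻¹, by rw [inv_mul_cancel_right]⟩
    have h1 := h Y hYZ hY d' r' (by omega)
    rw [kOrdU_eq, ← kRat_congr (scale_TU U d' r' hY0)] at h1
    exact h1

lemma kOrdU_conj (U : Subgroup (ZMod p)ˣ) (d : ℕ) (r : (ZMod p)ˣ) (g : G) (H : Subgroup G) :
    kOrdU p U d r (conjSub g H) = kOrdU p U d r H := by
  have hle : ∀ (g : G) (H : Subgroup G), kOrdU p U d r (conjSub g H) ≤ kOrdU p U d r H := by
    intro g H
    unfold kOrdU
    have hfin := finite_irr (H := H) (fun χ => HasClass p U d r χ)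
    let e : H ≃* ↥(conjSub g H) :=
      H.equivMapOfInjective (MulAut.conj g).toMonoidHom (MulAut.conj g).injective
    refine Nat.card_le_card_of_injective (fun χ => ⟨fun x => χ.1 (e x), irr_comp e χ.2.1, ?_⟩) ?_
    · obtain ⟨m, n, h1, h2, h3⟩ := χ.2.2
      refine ⟨m, n, ?_, ?_, h3⟩
      · simp only [map_one]
        exact h1
      · rw [Nat.card_congr e.toEquiv]
        exact h2
    · intro χ ψ h
      apply Subtype.ext
      funext x
      have h1 := congrFun (congrArg Subtype.val h) (e.symm x)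
      simp only [e.apply_symm_apply] at h1
      exact h1
  apply le_antisymm (hle g H)
  have h := hle g⁻¹ (conjSub g H)
  rwa [conjSub_inv_conjSub] at h

lemma ordU_contract [hp : Fact p.Prime] (U : Subgroup (ZMod p)ˣ) (hA : A ≤ Subgroup.center G)
    (hpA : IsPGroup p A) (hc : ¬ IsCore p A) : OrdU p U A := by
  have hn : A.Normal := normal_of_center hA
  have h1 : ¬ ∀ N : Subgroup G, N.Normal → IsPGroup p N → N ≤ A := fun h2 => hc ⟨hpA, hn, h2⟩
  push Not at h1
  obtain ⟨N, hN, hpN, hNA⟩ := h1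
  intro d r _
  exact contraction hpA hpN hNA _ (fun g σ _ => by rw [kOrdU_conj])

end

/-- **Globally.** -/
theorem global_iff [hp : Fact p.Prime] (U : Subgroup (ZMod p)ˣ) :
    (∀ (G : Type) [Group G] [Finite G] (Z A : Subgroup G), Z ≤ Subgroup.center G →
      IsSylowOf p A Z → ProjU p U Z A) ↔
    ∀ (G : Type) [Group G] [Finite G] (A : Subgroup G), A ≤ Subgroup.center G → IsCore p A →
      OrdU p U A := by
  constructor
  · intro h G _ _ A hA hc
    intro d r hd
    have hS : IsSylowOf p A A := ⟨le_rfl, hc.pgroup, rfl⟩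
    -- sum over all characters of `A`
    have : Fintype (A →* ℂˣ) := Fintype.ofFinite _
    have h5 := sum_quot (MonoidHom.id G) Function.surjective_id hA hS
      (by rw [MonoidHom.ker_id]; exact bot_le) (TU p U d r)
    rw [MonoidHom.ker_id, Subgroup.map_id, Subgroup.card_bot] at h5
    rw [kOrdU_eq]
    have h6 : (fun H : Subgroup G => (kRat (scale 1 (TU p U d r)) H : ℤ)) =
        fun H => (kRat (TU p U d r) H : ℤ) := by
      apply kRat_congr
      intro n _
      unfold scale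
      rw [Set.mem_ofPred_eq, Nat.cast_one, one_mul]
    rw [h6] at h5
    rw [← h5]
    refine Finset.sum_eq_zero fun lam _ => ?_
    have h7 := h G A A hA hS lam d r hd
    rw [kProjU_eq] at h7
    exact h7
  · intro h G _ _ Z A hZ hS
    rw [projU_iff U hZ hS]
    intro Y hYZ hY
    have hc := map_center (A := A) (QuotientGroup.mk' Y) (QuotientGroup.mk'_surjective Y)
      (hS.le.trans hZ)
    by_cases hcore : IsCore p (A.map (QuotientGroup.mk' Y))
    · exact h (G ⧸ Y) _ hc hcore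
    · exact ordU_contract U hc (hS.pgroup.map _) hcore

end Pool.Agent.X209.NB
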