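import Pool.Agent.X209.NB.Inv
import Pool.Agent.X209.NB.Uno

/-!
# Dade's invariant numbers for a normal subgroup, and central characters
-/

open scoped Classical BigOperators
open Pool.Agent.Y63.KR Pool.Agent.Helper884.IC Pool.Agent.Y63.AWC
open Pool.Agent.X209.PJ Pool.Agent.X209.CC

set_option linter.unusedSectionVars false
set_option linter.unusedVariables false

noncomputable section

namespace Pool.Agent.X209.NB

section defs

variable {E : Type} [Group E]

/-- The element `b` of `E` normalises the members of the chain `σ` of subgroups of `G` and fixes the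
character `χ` of `N_G(σ)`. -/
def Fixes (G : Subgroup E) (σ : Set (Subgroup G)) (χ : chainStabilizer σ → ℂ) (b : E) : Prop :=
  (∀ P ∈ σ, conjSub b (P.map G.subtype) = P.map G.subtype) ∧
    ∀ x y : chainStabilizer σ, ((y : G) : E) = b * ((x : G) : E) * b⁻¹ → χ y = χ x

/-- `N_E(σ, χ) G = U`. -/
def StabIs (G U : Subgroup E) (σ : Set (Subgroup G)) (χ : chainStabilizer σ → ℂ) : Prop :=
  ∀ u : E, u ∈ U ↔ ∃ b : E, Fixes G σ χ b ∧ b⁻¹ * u ∈ G

/-- The number of the irreducible characters `χ` of `N_G(σ)` of defect `d` with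
`N_E(σ, χ) G = U`. -/
def kInv (p : ℕ) (G U : Subgroup E) (d : ℕ) (σ : Set (Subgroup G)) : ℕ :=
  Nat.card {χ : chainStabilizer σ → ℂ // IsIrrChar χ ∧ HasDefect p d χ ∧ StabIs G U σ χ}

/-- The number of the irreducible characters `χ` of `N_G(σ)` of defect `d` over the linear character
`lam` of `Z` with `N_E(σ, χ) G = U`. -/
def kInvLam (p : ℕ) (G U : Subgroup E) {Z : Subgroup G} (lam : Z →* ℂˣ) (d : ℕ)
    (σ : Set (Subgroup G)) : ℕ :=
  Nat.card {χ : chainStabilizer σ → ℂ // IsIrrChar χ ∧ Over lam χ ∧ HasDefect p d χ ∧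
    StabIs G U σ χ}

end defs

/-! ### The link with the families -/

section link

variable {p : ℕ} {E : Type} [Group E] {G : Subgroup E} [hG : G.Normal]

lemma map_conjNormal_iff (b : E) (P : Subgroup G) :
    P.map (MulAut.conjNormal b : MulAut G).toMonoidHom = P ↔
      conjSub b (P.map G.subtype) = P.map G.subtype := by
  have h1 : conjSub b (P.map G.subtype) =
      (P.map (MulAut.conjNormal b : MulAut G).toMonoidHom).map G.subtype := by
    unfold conjSub
    rw [Subgroup.map_map, Subgroup.map_map]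
    congr 1
  rw [h1]
  constructor
  · intro h
    rw [h]
  · intro h
    exact Subgroup.map_injective G.subtype_injective h

lemma fixes_iff (σ : Set (Subgroup G)) (χ : chainStabilizer σ → ℂ) (b : E) :
    Fixes G σ χ b ↔ FixAut σ χ (MulAut.conjNormal b) := by
  unfold Fixes FixAut
  refine and_congr ?_ ?_
  · exact forall_congr' fun P => imp_congr_right fun _ => (map_conjNormal_iff b P).symm
  · refine forall_congr' fun x => forall_congr' fun y => ?_
    rw [Subtype.ext_iff, MulAut.conjNormal_apply]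

lemma exists_iff (σ : Set (Subgroup G)) (χ : chainStabilizer σ → ℂ) (u : E) :
    (∃ b : E, Fixes G σ χ b ∧ b⁻¹ * u ∈ G) ↔
      InU (MulAut.conjNormal : E →* MulAut G) σ χ u := by
  have key : ∀ (g : G), (MulAut.conjNormal (u * g) : MulAut G) =
      MulAut.conjNormal u * MulAut.conj g := by
    intro g
    ext x
    rw [MulAut.mul_apply, MulAut.conjNormal_apply, MulAut.conjNormal_apply, MulAut.conj_apply]
    push_cast
    group
  constructor
  · rintro ⟨b, hb, hbu⟩
    have h1 : u⁻¹ * b ∈ G := by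
      have := G.inv_mem hbu
      rwa [mul_inv_rev, inv_inv] at this
    refine ⟨⟨u⁻¹ * b, h1⟩, ?_⟩
    rw [← key, ← fixes_iff]
    have : u * ((⟨u⁻¹ * b, h1⟩ : G) : E) = b := by
      change u * (u⁻¹ * b) = b
      group
    rw [this]
    exact hb
  · rintro ⟨g, hg⟩
    rw [← key, ← fixes_iff] at hg
    refine ⟨u * g, hg, ?_⟩
    have : (u * (g : E))⁻¹ * u = (g : E)⁻¹ := by group
    rw [this]
    exact G.inv_mem g.2

lemma stabIs_iff (U : Subgroup E) (σ : Set (Subgroup G)) (χ : chainStabilizer σ → ℂ) :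
    StabIs G U σ χ ↔ famU (MulAut.conjNormal : E →* MulAut G) (U : Set E) σ χ :=
  forall_congr' fun u => by rw [exists_iff, SetLike.mem_coe]

end link

/-! ### Quotients -/

section quotient

/-- the family of defect and stabiliser -/
def famDU (p d : ℕ) {G : Type} [Group G] {Γ : Type} [Group Γ] (a : Γ →* MulAut G) (U : Set Γ) :
    Fam G := both (famT (TDef p d)) (famU a U)

variable {p : ℕ} {G : Type} [Group G] [Finite G] {A Z : Subgroup G} {Γ : Type} [Group Γ]

lemma famDU_natural (d : ℕ) (a : Γ →* MulAut G) (U : Set Γ) :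
    Natural p A (famDU p d a U) := both_natural (famT_natural _) (famU_natural a U)

lemma famDU_stable (d : ℕ) (a : Γ →* MulAut G) (U : Set Γ) :
    GalStable p A (famDU p d a U) := both_stable (famT_stable _) (famU_stable a U)

lemma scale_TDef {m : ℕ} (hm : m ≠ 0) (d n : ℕ) (hn : n ≠ 0) :
    ((n : ℂ) ∈ scale m (TDef p (d + m.factorization p)) ↔ (n : ℂ) ∈ TDef p d) := by
  unfold scale TDef
  rw [Set.mem_ofPred_eq, Set.mem_ofPred_eq, Set.mem_ofPred_eq]
  have hf : (m * n).factorization p = m.factorization p + n.factorization p := by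
    rw [Nat.factorization_mul hm hn, Finsupp.add_apply]
  constructor
  · rintro ⟨k, hk0, hk, hkd⟩
    have h1 : m * n = k := by exact_mod_cast hk
    rw [← h1, hf] at hkd
    exact ⟨n, Nat.pos_of_ne_zero hn, rfl, by omega⟩
  · rintro ⟨k, hk0, hk, hkd⟩
    have h1 : n = k := by exact_mod_cast hk
    rw [← h1] at hkd
    refine ⟨m * n, Nat.pos_of_ne_zero (mul_ne_zero hm hn), by push_cast; ring, ?_⟩
    rw [hf, hkd, add_comm]

lemma famDU_compat [hp : Fact p.Prime] {G' : Type} [Group G'] [Finite G'] (π : G →* G')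
    (hπ : Function.Surjective π) (hZ : Z ≤ Subgroup.center G) (hS : IsSylowOf p A Z)
    (hY : π.ker ≤ Z) (a : Γ →* MulAut G) (a' : Γ →* MulAut G')
    (ha : ∀ e x, π (a e x) = a' e (π x)) (hA : ∀ e : Γ, A ≤ A.map (a e).toMonoidHom)
    (U : Set Γ) (d : ℕ) :
    Compat π p A (famDU p (d + (Nat.card π.ker).factorization p) a U) (famDU p d a' U) := by
  apply both_compat
  · intro σ hσ ψ hψ
    rw [famT_compat π hπ hZ hS hY _ σ hσ ψ hψ]
    obtain ⟨m, n, hm0, hn0, hm, hn, hq⟩ := exists_quot hψ
    unfold famT Ratio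
    rw [hq]
    exact scale_TDef Nat.card_pos.ne' d n hn0
  · exact famU_compat π hπ hZ hS hY a a' ha hA U

theorem sum_DU [hp : Fact p.Prime] [Fintype (Z →* ℂˣ)] {G' : Type} [Group G'] [Finite G']
    (π : G →* G') (hπ : Function.Surjective π) (hZ : Z ≤ Subgroup.center G)
    (hS : IsSylowOf p A Z) (hY : π.ker ≤ Z) (a : Γ →* MulAut G) (a' : Γ →* MulAut G')
    (ha : ∀ e x, π (a e x) = a' e (π x)) (hA : ∀ e : Γ, A ≤ A.map (a e).toMonoidHom)
    (U : Set Γ) (d : ℕ) :
    ∑ lam ∈ LamW (π.ker.subgroupOf Z),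
        altC p A (fun σ => (kOver (famDU p (d + (Nat.card π.ker).factorization p) a U) lam σ : ℤ)) =
      altC p (A.map π) (fun σ => (kAll (famDU p d a' U) σ : ℤ)) :=
  altC_sum_over π hπ hZ hS hY (famDU_natural _ a U) (famDU_natural _ a' U)
    (famDU_compat π hπ hZ hS hY a a' ha hA U d)

/-- vanishing for one character from the vanishing of the sums -/
lemma vanish {W : Type} [Group W] [Finite W] [Fintype (W →* ℂˣ)] (c : (W →* ℂˣ) → ℤ)
    (hc : ∀ lam mu : W →* ℂˣ, lam.ker = mu.ker → c lam = c mu) (lam : W →* ℂˣ)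
    (h : ∀ m : ℕ, ∑ mu ∈ LamW (lam ^ m).ker, c mu = 0) : c lam = 0 := by
  have h1 := moebius_formula c hc lam
  rw [Finset.sum_eq_zero (fun m _ => by rw [h m, mul_zero])] at h1
  refine (mul_eq_zero.mp h1).resolve_left ?_
  have h2 : 0 < Nat.totient (orderOf lam) := Nat.totient_pos.mpr (orderOf_pos lam)
  exact_mod_cast h2.ne'

lemma altC_ker (hZ : Z ≤ Subgroup.center G) {Q : Fam G} (hQ : GalStable p A Q)
    {lam mu : Z →* ℂˣ} (h : lam.ker = mu.ker) :
    altC p A (fun σ => (kOver Q lam σ : ℤ)) = altC p A (fun σ => (kOver Q mu σ : ℤ)) := by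
  apply altC_congr
  intro σ hσ
  rw [kOver_ker hZ hQ h hσ]

/-! ### Cores -/

lemma sylow_of_core [hp : Fact p.Prime] (hZ : Z ≤ Subgroup.center G) (hA : IsCore p A)
    (hAZ : A ≤ Z) : IsSylowOf p A Z := by
  refine ⟨hAZ, hA.pgroup, le_antisymm ?_ ?_⟩
  · exact (Nat.factorization_le_iff_dvd Nat.card_pos.ne' Nat.card_pos.ne').mpr
      (Subgroup.card_dvd_of_le hAZ) p
  · let P : Sylow p Z := default
    have h1 : ((P : Subgroup Z).map Z.subtype) ≤ Subgroup.center G :=
      (Subgroup.map_subtype_le _).trans hZ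
    have h2 := hA.max _ (normal_of_center h1) (P.2.map _)
    have h3 : Nat.card ((P : Subgroup Z).map Z.subtype) = Nat.card P :=
      Nat.card_congr ((P : Subgroup Z).equivMapOfInjective Z.subtype
        Z.subtype_injective).toEquiv.symm
    have h4 := (Nat.factorization_le_iff_dvd Nat.card_pos.ne' Nat.card_pos.ne').mpr
      (Subgroup.card_dvd_of_le h2) p
    rw [h3, P.card_eq_multiplicity] at h4
    rw [hp.out.factorization_pow, Finsupp.single_eq_same] at h4
    exact h4

lemma core_quot [hp : Fact p.Prime] {G' : Type} [Group G'] [Finite G'] (π : G →* G')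
    (hπ : Function.Surjective π) (hZ : Z ≤ Subgroup.center G) (hS : IsSylowOf p A Z)
    (hY : π.ker ≤ Z) (hc : IsCore p A) : IsCore p (A.map π) := by
  have hAn : A.Normal := hc.normal
  have hAn' : (A.map π).Normal := normal_of_center (map_center π hπ (hS.le.trans hZ))
  refine ⟨hc.pgroup.map π, hAn', fun N hN hpN => ?_⟩
  have hp1 : IsPGroup p (A.map π ⊔ N : Subgroup G') :=
    IsPGroup.to_sup_of_normal_left (hc.pgroup.map π) hpN
  obtain ⟨P, h1, h2, h3⟩ := exists_lift π hπ hc.pgroup hp1 le_sup_left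
  have hPn : P.Normal := by
    rw [← Subgroup.normalizer_eq_top_iff, eq_top_iff]
    intro g _
    rw [← conjSub_eq_iff]
    have h6 : A ≤ conjSub g P := by
      rw [← conj_normal (A := A) g]
      exact conjSub_le h2
    refine eq_of_map π hZ hS hY (h1.map _) h1 h6 h2 ?_
    change (conjSub g P).map π = P.map π
    rw [← conjSub_map, h3]
    exact conj_normal (A := A.map π ⊔ N) (π g)
  have h4 := hc.max P hPn h1
  have h5 : A.map π ⊔ N ≤ A.map π := by
    rw [← h3]
    exact Subgroup.map_mono h4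
  exact le_sup_right.trans h5

end quotient

end Pool.Agent.X209.NB
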