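import Pool.Agent.X209.NB.InvE

/-!
# Dade's invariant numbers: the local and the global statement
-/

open scoped Classical BigOperators
open Pool.Agent.Y63.KR Pool.Agent.Helper884.IC Pool.Agent.Y63.AWC
open Pool.Agent.X209.PJ Pool.Agent.X209.CC

set_option linter.unusedSectionVars false
set_option linter.unusedVariables false

noncomputable section

namespace Pool.Agent.X209.NB

section transfer

variable {p : ℕ} {G : Type} [Group G] [Finite G] {A Z : Subgroup G}

lemma kInv_eq {L E' : Type} [Group L] [Group E'] [Finite E'] (q : L →* E')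
    (hq : Function.Surjective q) (G' : Subgroup E') [hG' : G'.Normal] (U' : Subgroup E') (d : ℕ)
    (σ : Set (Subgroup G')) :
    kAll (famDU p d ((MulAut.conjNormal : E' →* MulAut G').comp q) (q ⁻¹' (U' : Set E'))) σ =
      kInv p G' U' d σ := by
  unfold kAll kInv
  refine Nat.card_congr (Equiv.subtypeEquivRight fun χ => ?_)
  refine and_congr_right fun hχ => and_congr (ratio_defect hχ p d) ?_
  rw [stabIs_iff]
  constructor
  · intro h u'
    obtain ⟨u, rfl⟩ := hq u'
    exact h u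
  · intro h u
    exact h (q u)

theorem sum_transfer [hp : Fact p.Prime] [Fintype (Z →* ℂˣ)] {L E' : Type} [Group L] [Group E']
    [Finite E'] (q : L →* E') (hq : Function.Surjective q) (a : L →* MulAut G) (G' : Subgroup E')
    [hG' : G'.Normal] (π : G →* G') (hπ : Function.Surjective π)
    (ha : ∀ e x, ((π (a e x) : G') : E') = q e * (π x : G') * (q e)⁻¹)
    (hZ : Z ≤ Subgroup.center G) (hS : IsSylowOf p A Z) (hY : π.ker ≤ Z)
    (hA : ∀ e : L, A ≤ A.map (a e).toMonoidHom) (U' : Subgroup E') (d : ℕ) :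
    ∑ lam ∈ LamW (π.ker.subgroupOf Z), altC p A (fun σ =>
        (kOver (famDU p (d + (Nat.card π.ker).factorization p) a (q ⁻¹' (U' : Set E'))) lam σ : ℤ)) =
      altC p (A.map π) (fun σ => (kInv p G' U' d σ : ℤ)) := by
  rw [sum_DU π hπ hZ hS hY a ((MulAut.conjNormal : E' →* MulAut G').comp q) (fun e x => by
    apply Subtype.ext
    rw [ha, MonoidHom.comp_apply, MulAut.conjNormal_apply]) hA]
  apply altC_congr
  intro σ _
  rw [kInv_eq q hq]

end transfer

section main

variable {p : ℕ} {E : Type} [Group E] [Finite E] {G : Subgroup E} [hG : G.Normal]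
  {A Z : Subgroup G}

lemma kInvLam_eq (U : Subgroup E) (lam : Z →* ℂˣ) (d : ℕ) (σ : Set (Subgroup G)) :
    kInvLam p G U lam d σ =
      kOver (famDU p d (MulAut.conjNormal : E →* MulAut G) (U : Set E)) lam σ := by
  unfold kInvLam kOver
  refine Nat.card_congr (Equiv.subtypeEquivRight fun χ => ?_)
  constructor
  · rintro ⟨h1, h2, h3, h4⟩
    exact ⟨h1, h2, (ratio_defect h1 p d).mpr h3, (stabIs_iff U σ χ).mp h4⟩
  · rintro ⟨h1, h2, h3, h4⟩
    exact ⟨h1, h2, (ratio_defect h1 p d).mp h3, (stabIs_iff U σ χ).mpr h4⟩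

lemma kInv_eq' (U : Subgroup E) (d : ℕ) (σ : Set (Subgroup G)) :
    kInv p G U d σ = kAll (famDU p d (MulAut.conjNormal : E →* MulAut G) (U : Set E)) σ := by
  unfold kInv kAll
  refine Nat.card_congr (Equiv.subtypeEquivRight fun χ => ?_)
  constructor
  · rintro ⟨h1, h3, h4⟩
    exact ⟨h1, (ratio_defect h1 p d).mpr h3, (stabIs_iff U σ χ).mp h4⟩
  · rintro ⟨h1, h3, h4⟩
    exact ⟨h1, (ratio_defect h1 p d).mp h3, (stabIs_iff U σ χ).mpr h4⟩

/-- the elements of `G` always belong to the stabiliser -/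
lemma inU_of_mem (σ : Set (Subgroup G)) (χ : chainStabilizer σ → ℂ) {u : E} (hu : u ∈ G) :
    InU (MulAut.conjNormal : E →* MulAut G) σ χ u := by
  refine ⟨⟨u⁻¹, G.inv_mem hu⟩, ?_⟩
  have h1 : (MulAut.conjNormal u : MulAut G) * MulAut.conj ⟨u⁻¹, G.inv_mem hu⟩ = 1 := by
    ext x
    rw [MulAut.mul_apply, MulAut.conjNormal_apply, MulAut.conj_apply, MulAut.one_apply]
    push_cast
    group
  rw [h1]
  refine ⟨fun P _ => ?_, fun x y hxy => ?_⟩
  · exact Subgroup.map_id P
  · rw [Subtype.ext (hxy : (y : G) = x)]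

lemma kInvLam_zero {U : Subgroup E} (h : ¬ G ≤ U) (lam : Z →* ℂˣ) (d : ℕ)
    (σ : Set (Subgroup G)) : kInvLam p G U lam d σ = 0 := by
  obtain ⟨u, hu, huU⟩ := SetLike.not_le_iff_exists.mp h
  unfold kInvLam
  have : IsEmpty {χ : chainStabilizer σ → ℂ // IsIrrChar χ ∧ Over lam χ ∧ HasDefect p d χ ∧
      StabIs G U σ χ} := by
    constructor
    rintro ⟨χ, h1, h2, h3, h4⟩
    rw [stabIs_iff] at h4
    exact huU ((h4 u).mpr (inU_of_mem σ χ hu))
  exact Nat.card_of_isEmpty

lemma kInv_zero {U : Subgroup E} (h : ¬ G ≤ U) (d : ℕ)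
    (σ : Set (Subgroup G)) : kInv p G U d σ = 0 := by
  obtain ⟨u, hu, huU⟩ := SetLike.not_le_iff_exists.mp h
  unfold kInv
  have : IsEmpty {χ : chainStabilizer σ → ℂ // IsIrrChar χ ∧ HasDefect p d χ ∧
      StabIs G U σ χ} := by
    constructor
    rintro ⟨χ, h1, h3, h4⟩
    rw [stabIs_iff] at h4
    exact huU ((h4 u).mpr (inU_of_mem σ χ hu))
  exact Nat.card_of_isEmpty

lemma altC_zero {H : Type} [Group H] {B : Subgroup H} {f : Set (Subgroup H) → ℕ}
    (h : ∀ σ, f σ = 0) : altC p B (fun σ => (f σ : ℤ)) = 0 := by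
  unfold altC
  simp [h]

/-! ### The stabiliser of a linear character of `Z` -/

/-- the stabiliser of `lam` in `E` -/
def stabLam (hZn : (Z.map G.subtype).Normal) (lam : Z →* ℂˣ) : Subgroup E where
  carrier := {e | ∀ z z' : Z, ((z' : G) : E) = e * ((z : G) : E) * e⁻¹ → lam z' = lam z}
  one_mem' := by
    intro z z' h
    have h1 : z' = z := by
      apply Subtype.ext
      apply Subtype.ext
      rw [h]
      group
    rw [h1]
  mul_mem' := by
    intro e f he hf z z' h
    obtain ⟨w, hw, hwz⟩ := hZn.conj_mem ((z : G) : E) ⟨z, z.2, rfl⟩ f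
    have h1 := hf z ⟨w, hw⟩ hwz
    rw [← h1]
    apply he
    rw [h]
    have h2 : ((w : G) : E) = f * ((z : G) : E) * f⁻¹ := hwz
    change _ = e * ((w : G) : E) * e⁻¹
    rw [h2]
    group
  inv_mem' := by
    intro e he z z' h
    symm
    apply he
    rw [h]
    group

lemma mem_stabLam (hZn : (Z.map G.subtype).Normal) (lam : Z →* ℂˣ) (e : E) :
    e ∈ stabLam hZn lam ↔
      ∀ z z' : Z, ((z' : G) : E) = e * ((z : G) : E) * e⁻¹ → lam z' = lam z := Iff.rfl

lemma le_stabLam (hZ : Z ≤ Subgroup.center G) (hZn : (Z.map G.subtype).Normal)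
    (lam : Z →* ℂˣ) : G ≤ stabLam hZn lam := by
  intro e he z z' h
  have h1 : z' = z := by
    apply Subtype.ext
    apply Subtype.ext
    have h2 := congrArg (Subtype.val) (Subgroup.mem_center_iff.mp (hZ z.2) ⟨e, he⟩)
    have h3 : e * ((z : G) : E) = ((z : G) : E) * e := h2
    rw [h, h3]
    group
  rw [h1]

lemma mem_stabLam_of_inU (hZ : Z ≤ Subgroup.center G) (hZn : (Z.map G.subtype).Normal)
    {lam : Z →* ℂˣ} {σ : Set (Subgroup G)} {χ : chainStabilizer σ → ℂ} (hχ : IsIrrChar χ)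
    (hl : Over lam χ) {u : E} (h : InU (MulAut.conjNormal : E →* MulAut G) σ χ u) :
    u ∈ stabLam hZn lam := by
  obtain ⟨g, _, hg⟩ := h
  intro z z' hzz
  have hZσ := center_le_stab hZ σ
  have h1 := hg ⟨z, hZσ z.2⟩ ⟨z', hZσ z'.2⟩ (by
    apply Subtype.ext
    rw [MulAut.mul_apply, MulAut.conjNormal_apply, MulAut.conj_apply]
    change ((z' : G) : E) = u * (((g * (z : G) * g⁻¹ : G)) : E) * u⁻¹
    rw [Subgroup.mem_center_iff.mp (hZ z.2) g, mul_inv_cancel_right]
    exact hzz)
  have h2 := over_val hZσ hχ hl z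
  have h3 := over_val hZσ hχ hl z'
  rw [h1] at h3
  exact Units.ext (h3.symm.trans h2)

lemma kInvLam_zero' (hZ : Z ≤ Subgroup.center G) (hZn : (Z.map G.subtype).Normal)
    {U : Subgroup E} (lam : Z →* ℂˣ) (h : ¬ U ≤ stabLam hZn lam) (d : ℕ)
    (σ : Set (Subgroup G)) : kInvLam p G U lam d σ = 0 := by
  obtain ⟨u, hu, huU⟩ := SetLike.not_le_iff_exists.mp h
  unfold kInvLam
  have : IsEmpty {χ : chainStabilizer σ → ℂ // IsIrrChar χ ∧ Over lam χ ∧ HasDefect p d χ ∧
      StabIs G U σ χ} := by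
    constructor
    rintro ⟨χ, h1, h2, h3, h4⟩
    rw [stabIs_iff] at h4
    exact huU (mem_stabLam_of_inU hZ hZn h1 h2 ((h4 u).mp hu))
  exact Nat.card_of_isEmpty

/-- only the stabiliser of `lam` matters -/
lemma kInvLam_stab (hZ : Z ≤ Subgroup.center G) (hZn : (Z.map G.subtype).Normal)
    {U : Subgroup E} (lam : Z →* ℂˣ) (hU : U ≤ stabLam hZn lam) (d : ℕ)
    (σ : Set (Subgroup G)) : kInvLam p G U lam d σ =
      kOver (famDU p d ((MulAut.conjNormal : E →* MulAut G).comp (stabLam hZn lam).subtype)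
        ((stabLam hZn lam).subtype ⁻¹' (U : Set E))) lam σ := by
  rw [kInvLam_eq]
  unfold kOver
  refine Nat.card_congr (Equiv.subtypeEquivRight fun χ => ?_)
  refine and_congr_right fun hχ => and_congr_right fun hl => and_congr Iff.rfl ?_
  constructor
  · intro h u
    exact h u
  · intro h u
    by_cases hu : u ∈ stabLam hZn lam
    · exact h ⟨u, hu⟩
    · constructor
      · intro h1
        exact absurd (hU h1) hu
      · intro h1
        exact absurd (mem_stabLam_of_inU hZ hZn hχ hl h1) hu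

theorem forward [hp : Fact p.Prime]
    (H : ∀ (E : Type) [Group E] [Finite E] (G : Subgroup E), G.Normal →
      IsCore p (⊥ : Subgroup G) → ∀ (U : Subgroup E) (d : ℕ), 0 < d →
        altC p (⊥ : Subgroup G) (fun σ => (kInv p G U d σ : ℤ)) = 0)
    (hc : IsCore p (⊥ : Subgroup G)) (hZ : Z ≤ Subgroup.center G)
    (hZn : (Z.map G.subtype).Normal) (lam : Z →* ℂˣ) (U : Subgroup E) {d : ℕ} (hd : 0 < d) :
    altC p (⊥ : Subgroup G) (fun σ => (kInvLam p G U lam d σ : ℤ)) = 0 := by
  have : Fintype (Z →* ℂˣ) := Fintype.ofFinite _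
  by_cases hGU : G ≤ U
  swap
  · exact altC_zero fun σ => kInvLam_zero hGU lam d σ
  by_cases hUL : U ≤ stabLam hZn lam
  swap
  · exact altC_zero fun σ => kInvLam_zero' hZ hZn lam hUL d σ
  have hS : IsSylowOf p (⊥ : Subgroup G) Z := sylow_of_core hZ hc bot_le
  set L : Subgroup E := stabLam hZn lam with hL
  have hGL : G ≤ L := le_stabLam hZ hZn lam
  set a : L →* MulAut G := (MulAut.conjNormal : E →* MulAut G).comp L.subtype with ha
  set UL : Set L := L.subtype ⁻¹' (U : Set E) with hUL'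
  have h0 : altC p (⊥ : Subgroup G) (fun σ => (kInvLam p G U lam d σ : ℤ)) =
      altC p (⊥ : Subgroup G) (fun σ => (kOver (famDU p d a UL) lam σ : ℤ)) := by
    apply altC_congr
    intro σ _
    rw [kInvLam_stab hZ hZn lam hUL d σ]
  rw [h0]
  refine vanish (fun mu : Z →* ℂˣ =>
    altC p (⊥ : Subgroup G) (fun σ => (kOver (famDU p d a UL) mu σ : ℤ)))
    (fun lam mu h => altC_ker hZ (famDU_stable d a UL) h) lam ?_
  intro m
  -- the quotient by the kernel of `lam ^ m`
  set K : Subgroup G := kerG (lam ^ m) with hK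
  let j : G →* L := Subgroup.inclusion hGL
  have hjinj : Function.Injective j := Subgroup.inclusion_injective hGL
  have hKn : (K.map j).Normal := by
    constructor
    rintro _ ⟨x, hx, rfl⟩ e
    have hxZ : x ∈ Z := kerG_le (lam ^ m) hx
    obtain ⟨w, hw, hwz⟩ := hZn.conj_mem (x : E) ⟨x, hxZ, rfl⟩ (e : E)
    refine ⟨w, ?_, ?_⟩
    · have h1 := (mem_kerG (lam ^ m) ⟨x, hxZ⟩).mp hx
      rw [SetLike.mem_coe, hK]
      rw [mem_kerG (lam ^ m) ⟨w, hw⟩, MonoidHom.mem_ker, MonoidHom.pow_apply]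
      rw [MonoidHom.mem_ker, MonoidHom.pow_apply] at h1
      rw [← h1]
      congr 1
      exact e.2 ⟨x, hxZ⟩ ⟨w, hw⟩ hwz
    · apply Subtype.ext
      exact hwz
  let q : L →* L ⧸ (K.map j) := QuotientGroup.mk' (K.map j)
  have hq : Function.Surjective q := QuotientGroup.mk'_surjective _
  let G' : Subgroup (L ⧸ (K.map j)) := (q.comp j).range
  have hG'n : G'.Normal := by
    constructor
    rintro _ ⟨x, rfl⟩ e'
    obtain ⟨e, rfl⟩ := hq e'
    refine ⟨MulAut.conjNormal (e : E) x, ?_⟩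
    rw [MonoidHom.comp_apply, MonoidHom.comp_apply, ← map_mul, ← map_inv, ← map_mul]
    congr 1
  let π : G →* G' := (q.comp j).rangeRestrict
  have hπ : Function.Surjective π := (q.comp j).rangeRestrict_surjective
  have hker : π.ker = K := by
    ext x
    rw [MonoidHom.ker_rangeRestrict, MonoidHom.mem_ker, MonoidHom.comp_apply]
    change QuotientGroup.mk' (K.map j) (j x) = 1 ↔ x ∈ K
    rw [← MonoidHom.mem_ker, QuotientGroup.ker_mk']
    exact Subgroup.mem_map_iff_mem hjinj
  have hY : π.ker ≤ Z := by rw [hker]; exact kerG_le (lam ^ m)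
  have hvp : (Nat.card π.ker).factorization p = 0 := by
    have h1 := (Nat.factorization_le_iff_dvd Nat.card_pos.ne' Nat.card_pos.ne').mpr
      (Subgroup.card_dvd_of_le hY) p
    have h2 := hS.card
    rw [Subgroup.card_bot, Nat.factorization_one, Finsupp.zero_apply] at h2
    omega
  set U' : Subgroup (L ⧸ (K.map j)) := (U.subgroupOf L).map q with hU'
  have hpre : q ⁻¹' (U' : Set (L ⧸ (K.map j))) = UL := by
    have h1 : (K.map j) ≤ U.subgroupOf L := by
      rintro _ ⟨x, _, rfl⟩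
      rw [Subgroup.mem_subgroupOf]
      exact hGU x.2
    have h2 : ((U.subgroupOf L).map q).comap q = U.subgroupOf L := by
      apply Subgroup.comap_map_eq_self
      rw [QuotientGroup.ker_mk']
      exact h1
    ext u
    have h3 : u ∈ ((U.subgroupOf L).map q).comap q ↔ u ∈ U.subgroupOf L := by rw [h2]
    exact h3
  have h1 := sum_transfer (p := p) (A := (⊥ : Subgroup G)) (Z := Z) q hq a G' π hπ
    (fun e x => rfl) hZ hS hY (fun e => bot_le) U' d
  have hsub : π.ker.subgroupOf Z = (lam ^ m).ker := by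
    rw [hker]
    exact subgroupOf_kerG (lam ^ m)
  rw [hvp, add_zero, hpre, hsub] at h1
  rw [h1, Subgroup.map_bot]
  have hc' : IsCore p (⊥ : Subgroup G') := by
    have h2 := core_quot π hπ hZ hS hY hc
    rwa [Subgroup.map_bot] at h2
  exact H _ G' hG'n hc' U' d hd

theorem backward [hp : Fact p.Prime] (hc : IsCore p (⊥ : Subgroup G))
    {U : Subgroup E} {d : ℕ} (hZ : Z ≤ Subgroup.center G)
    (h : ∀ lam : Z →* ℂˣ, altC p (⊥ : Subgroup G) (fun σ => (kInvLam p G U lam d σ : ℤ)) = 0) :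
    altC p (⊥ : Subgroup G) (fun σ => (kInv p G U d σ : ℤ)) = 0 := by
  have : Fintype (Z →* ℂˣ) := Fintype.ofFinite _
  have hS : IsSylowOf p (⊥ : Subgroup G) Z := sylow_of_core hZ hc bot_le
  have h1 := sum_DU (p := p) (MonoidHom.id G) Function.surjective_id hZ hS
    (by rw [MonoidHom.ker_id]; exact bot_le) (MulAut.conjNormal : E →* MulAut G)
    (MulAut.conjNormal : E →* MulAut G) (fun e x => rfl) (fun e => bot_le) (U : Set E) d
  rw [MonoidHom.ker_id, Subgroup.map_id, Subgroup.card_bot, Nat.factorization_one,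
    Finsupp.zero_apply, add_zero] at h1
  have h2 : altC p (⊥ : Subgroup G) (fun σ => (kInv p G U d σ : ℤ)) =
      altC p (⊥ : Subgroup G) (fun σ =>
        (kAll (famDU p d (MulAut.conjNormal : E →* MulAut G) (U : Set E)) σ : ℤ)) := by
    apply altC_congr
    intro σ _
    rw [kInv_eq']
  rw [h2, ← h1]
  refine Finset.sum_eq_zero fun lam _ => ?_
  rw [← h lam]
  apply altC_congr
  intro σ _
  rw [kInvLam_eq]

end main

/-- **Globally.** -/
theorem inv_global {p : ℕ} [hp : Fact p.Prime] :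
    (∀ (E : Type) [Group E] [Finite E] (G : Subgroup E), G.Normal →
      IsCore p (⊥ : Subgroup G) → ∀ (U : Subgroup E) (d : ℕ), 0 < d →
        altC p (⊥ : Subgroup G) (fun σ => (kInv p G U d σ : ℤ)) = 0) ↔
    ∀ (E : Type) [Group E] [Finite E] (G : Subgroup E), G.Normal →
      IsCore p (⊥ : Subgroup G) → ∀ (lam : Subgroup.center G →* ℂˣ) (U : Subgroup E) (d : ℕ),
        0 < d → altC p (⊥ : Subgroup G) (fun σ => (kInvLam p G U lam d σ : ℤ)) = 0 := by
  constructor
  · intro H E _ _ G hG hc lam U d hd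
    have hZn : ((Subgroup.center G).map G.subtype).Normal := inferInstance
    exact forward H hc le_rfl hZn lam U hd
  · intro H E _ _ G hG hc U d hd
    exact backward hc (le_refl (Subgroup.center G)) fun lam => H E G hG hc lam U d hd

end Pool.Agent.X209.NB
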