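import Pool.Agent.X209.PJ.GenZ
import Pool.Agent.X209.CC.Cnt

/-!
# Alternating sums over chains, and arbitrary central quotients
-/

open scoped Classical BigOperators
open Pool.Agent.Y63.KR
open Pool.Agent.X209.PJ

set_option linter.unusedSectionVars false
set_option linter.unusedVariables false

noncomputable section

namespace Pool.Agent.X209.NB

variable {p : ℕ} {G : Type} [Group G] [Finite G] {A Z : Subgroup G}

/-- The alternating sum `∑_σ (-1)^|σ| f(σ)` over representatives `σ` of the `G`-classes of the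
chains of `p`-subgroups which contain `A` properly, the empty chain included. -/
def altC (p : ℕ) {G : Type} [Group G] (A : Subgroup G) (f : Set (Subgroup G) → ℤ) : ℤ :=
  ∑ᶠ c : Quotient (aboveClass p A), (-1) ^ c.out.1.ncard * f c.out.1

lemma altAbove_eq (f : Subgroup G → ℤ) :
    altAbove p A f = altC p A (fun σ => f (chainStabilizer σ)) := rfl

theorem card_mul_altC [hA : A.Normal] (f : Set (Subgroup G) → ℤ)
    (hf : ∀ (g : G) (σ : Set (Subgroup G)), IsChainAbove p A σ → f (conjSub g '' σ) = f σ)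
    [Fintype {σ : Set (Subgroup G) // IsChainAbove p A σ}] :
    (Nat.card G : ℤ) * altC p A f =
      ∑ σ : {σ : Set (Subgroup G) // IsChainAbove p A σ},
        (-1) ^ σ.1.ncard * ((Nat.card (chainStabilizer σ.1) : ℤ) * f σ.1) := by
  letI : MulAction G {σ : Set (Subgroup G) // IsChainAbove p A σ} :=
    { smul := fun g σ => ⟨conjSub g '' σ.1, σ.2.conj g⟩
      one_smul := fun σ => by
        apply Subtype.ext
        change conjSub (1 : G) '' σ.1 = σ.1
        have : (conjSub (1 : G)) = id := funext conjSub_one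
        rw [this, Set.image_id]
      mul_smul := fun g h σ => by
        apply Subtype.ext
        change conjSub (g * h) '' σ.1 = conjSub g '' (conjSub h '' σ.1)
        rw [← Set.image_comp]
        congr 1
        exact funext fun P => conjSub_mul g h P }
  have hsm : ∀ (g : G) (σ : {σ : Set (Subgroup G) // IsChainAbove p A σ}),
      (g • σ).1 = conjSub g '' σ.1 := fun _ _ => rfl
  have h := orbit_sum (G := G) (aboveClass p A) (by
    intro σ τ
    change (∃ g : G, τ.1 = conjSub g '' σ.1) ↔ _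
    constructor
    · rintro ⟨g, hg⟩
      exact ⟨g, Subtype.ext (by rw [hsm, hg])⟩
    · rintro ⟨g, hg⟩
      exact ⟨g, by rw [← hg, hsm]⟩)
    (fun σ => (-1) ^ σ.1.ncard * f σ.1) (by
      rintro σ τ ⟨g, hg⟩
      rw [hg, ncard_conj, hf g σ.1 σ.2])
  unfold altC
  rw [h]
  refine Finset.sum_congr rfl fun σ _ => ?_
  have hst : Nat.card (MulAction.stabilizer G σ) = Nat.card (chainStabilizer σ.1) := by
    refine Nat.card_congr (Equiv.subtypeEquivRight fun g => ?_)
    rw [MulAction.mem_stabilizer_iff, Subtype.ext_iff, hsm, mem_chainStabilizer]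
    constructor
    · intro h3 P hP
      have hgP : conjSub g P ∈ σ.1 := by
        rw [← h3]
        exact ⟨P, hP, rfl⟩
      have hcard : Nat.card (conjSub g P) = Nat.card P :=
        Nat.card_congr (Subgroup.equivMapOfInjective _ _ (MulAut.conj g).injective).toEquiv.symm
      rcases σ.2.1.total hgP hP with h4 | h4
      · exact Subgroup.eq_of_le_of_card_ge h4 hcard.ge
      · exact (Subgroup.eq_of_le_of_card_ge h4 hcard.le).symm
    · intro h3
      ext P
      constructor
      · rintro ⟨Q, hQ, rfl⟩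
        rw [h3 Q hQ]
        exact hQ
      · intro hP
        exact ⟨P, hP, h3 P hP⟩
  rw [hst]
  ring

lemma altC_sum {ι : Type} (s : Finset ι) (f : ι → Set (Subgroup G) → ℤ) :
    altC p A (fun σ => ∑ i ∈ s, f i σ) = ∑ i ∈ s, altC p A (f i) := by
  have : Fintype (Quotient (aboveClass p A)) := Fintype.ofFinite _
  unfold altC
  simp only [finsum_eq_sum_of_fintype]
  rw [Finset.sum_comm]
  refine Finset.sum_congr rfl fun c _ => ?_
  rw [Finset.mul_sum]

lemma altC_congr {f g : Set (Subgroup G) → ℤ} (h : ∀ σ, IsChainAbove p A σ → f σ = g σ) :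
    altC p A f = altC p A g := by
  unfold altC
  refine finsum_congr fun c => ?_
  rw [h c.out.1 c.out.2]

/-! ### Quotients -/

section quot

variable {G' : Type} [Group G'] [Finite G'] (π : G →* G')

/-- the `p`-elements of `Z` are in `A` -/
lemma pelt_mem [hp : Fact p.Prime] (hZ : Z ≤ Subgroup.center G) (hS : IsSylowOf p A Z) {z : G}
    (hz : z ∈ Z) {j : ℕ} (hj : z ^ p ^ j = 1) : z ∈ A := by
  have hn : (A.subgroupOf Z).Normal := by
    constructor
    intro n hn g
    have : g * n * g⁻¹ = n := by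
      apply Subtype.ext
      change (g : G) * n * (g : G)⁻¹ = n
      rw [Subgroup.mem_center_iff.mp (hZ n.2) g, mul_inv_cancel_right]
    rwa [this]
  have hidx : ¬ p ∣ (A.subgroupOf Z).index := by
    intro h3
    have h4 := (A.subgroupOf Z).card_mul_index
    have h5 : Nat.card (A.subgroupOf Z) = Nat.card A :=
      Nat.card_congr (Subgroup.subgroupOfEquivOfLe hS.le).toEquiv
    have h6 : (A.subgroupOf Z).index ≠ 0 := Subgroup.index_ne_zero_of_finite
    have h7 : 0 < ((A.subgroupOf Z).index).factorization p :=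
      hp.out.factorization_pos_of_dvd h6 h3
    have h8 : (Nat.card (A.subgroupOf Z) * (A.subgroupOf Z).index).factorization p =
        (Nat.card Z).factorization p := by rw [h4]
    rw [h5, Nat.factorization_mul Nat.card_pos.ne' h6, Finsupp.add_apply, hS.card] at h8
    omega
  set m := (A.subgroupOf Z).index with hm
  have h3 : (⟨z, hz⟩ : Z) ^ m ∈ A.subgroupOf Z := Subgroup.pow_index_mem _ _
  have h4 : z ^ m ∈ A := Subgroup.mem_subgroupOf.mp h3
  have hcop : Nat.Coprime m (orderOf z) := by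
    have h5 : orderOf z ∣ p ^ j := orderOf_dvd_of_pow_eq_one hj
    refine Nat.Coprime.coprime_dvd_right h5 (Nat.Coprime.pow_right _ ?_)
    exact ((Nat.Prime.coprime_iff_not_dvd hp.out).mpr hidx).symm
  obtain ⟨i, hi⟩ := exists_pow_eq_self_of_coprime hcop
  rw [← hi]
  exact A.pow_mem h4 i

lemma le_of_map [hp : Fact p.Prime] (hZ : Z ≤ Subgroup.center G) (hS : IsSylowOf p A Z)
    (hY : π.ker ≤ Z) {P Q : Subgroup G} (hP : IsPGroup p P) (hQ : IsPGroup p Q) (hAQ : A ≤ Q)
    (h : P.map π ≤ Q.map π) : P ≤ Q := by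
  intro x hx
  obtain ⟨q, hq, hqx⟩ := h ⟨x, hx, rfl⟩
  have hy : q⁻¹ * x ∈ π.ker := by
    rw [MonoidHom.mem_ker, map_mul, map_inv, hqx, inv_mul_cancel]
  have hyZ := hY hy
  have hc : Commute q x := by
    have h1 := Subgroup.mem_center_iff.mp (hZ hyZ) q
    -- `q * (q⁻¹ * x) = (q⁻¹ * x) * q`
    have h2 : x = q⁻¹ * x * q := by
      rw [← h1]
      group
    change q * x = x * q
    conv_lhs => rw [h2]
    group
  obtain ⟨i, hi⟩ := hP ⟨x, hx⟩
  obtain ⟨j, hj⟩ := hQ ⟨q, hq⟩
  have hi' : x ^ p ^ i = 1 := congrArg Subtype.val hi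
  have hj' : q ^ p ^ j = 1 := congrArg Subtype.val hj
  have h3 : (q⁻¹ * x) ^ p ^ (j + i) = 1 := by
    rw [(hc.inv_left).mul_pow, inv_pow, pow_add, pow_mul, hj', one_pow, inv_one, one_mul,
      mul_comm (p ^ j), pow_mul, hi', one_pow]
  have h4 := pelt_mem hZ hS hyZ h3
  have h5 := Q.mul_mem hq (hAQ h4)
  rwa [mul_inv_cancel_left] at h5

lemma eq_of_map [hp : Fact p.Prime] (hZ : Z ≤ Subgroup.center G) (hS : IsSylowOf p A Z)
    (hY : π.ker ≤ Z) {P Q : Subgroup G} (hP : IsPGroup p P) (hQ : IsPGroup p Q) (hAP : A ≤ P)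
    (hAQ : A ≤ Q) (h : P.map π = Q.map π) : P = Q :=
  le_antisymm (le_of_map π hZ hS hY hP hQ hAQ h.le) (le_of_map π hZ hS hY hQ hP hAP h.ge)

lemma exists_lift [hp : Fact p.Prime] (hπ : Function.Surjective π) (hpA : IsPGroup p A)
    {P' : Subgroup G'} (hP' : IsPGroup p P') (hA' : A.map π ≤ P') :
    ∃ P : Subgroup G, IsPGroup p P ∧ A ≤ P ∧ P.map π = P' := by
  have hAN : A ≤ P'.comap π := Subgroup.map_le_iff_le_comap.mp hA'
  have h1 : IsPGroup p (A.subgroupOf (P'.comap π)) :=
    hpA.comap_subtype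
  obtain ⟨S, hS⟩ := h1.exists_le_sylow
  let ρ : ↥(P'.comap π) →* P' := π.subgroupComap P'
  have hρ : Function.Surjective ρ := by
    rintro ⟨y, hy⟩
    obtain ⟨x, rfl⟩ := hπ y
    exact ⟨⟨x, hy⟩, rfl⟩
  have h2 : ((S.mapSurjective hρ : Sylow p P') : Subgroup P') = ⊤ := by
    refine ((S.mapSurjective hρ).is_maximal' (Q := ⊤) ?_ le_top).symm
    exact hP'.to_subgroup ⊤
  refine ⟨(S : Subgroup ↥(P'.comap π)).map (P'.comap π).subtype, S.2.map _, ?_, ?_⟩
  · intro a ha
    exact ⟨⟨a, hAN ha⟩, hS (Subgroup.mem_subgroupOf.mpr ha), rfl⟩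
  · ext y
    constructor
    · rintro ⟨_, ⟨x, _, rfl⟩, rfl⟩
      exact x.2
    · intro hy
      have h3 : (⟨y, hy⟩ : P') ∈ ((S.mapSurjective hρ : Sylow p P') : Subgroup P') := by
        rw [h2]
        trivial
      rw [Sylow.coe_mapSurjective] at h3
      obtain ⟨x, hx, hxy⟩ := h3
      exact ⟨x, ⟨x, hx, rfl⟩, congrArg Subtype.val hxy⟩

lemma above_image [hp : Fact p.Prime] (hZ : Z ≤ Subgroup.center G) (hS : IsSylowOf p A Z)
    (hY : π.ker ≤ Z) {σ : Set (Subgroup G)} (h : IsChainAbove p A σ) :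
    IsChainAbove p (A.map π) ((Subgroup.map π) '' σ) := by
  constructor
  · rintro _ ⟨P, hP, rfl⟩ _ ⟨Q, hQ, rfl⟩ _
    rcases h.1.total hP hQ with h1 | h1
    · exact Or.inl (Subgroup.map_mono h1)
    · exact Or.inr (Subgroup.map_mono h1)
  · rintro _ ⟨P, hP, rfl⟩
    refine ⟨(h.2 P hP).1.map π, ?_⟩
    refine lt_of_le_of_ne (Subgroup.map_mono (h.2 P hP).2.le) fun h1 => ?_
    exact (h.2 P hP).2.ne (eq_of_map π hZ hS hY hS.pgroup (h.2 P hP).1 le_rfl (h.2 P hP).2.le h1)

/-- the chain of the preimages -/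
def back (p : ℕ) (A : Subgroup G) (τ : Set (Subgroup G')) : Set (Subgroup G) :=
  {P | IsPGroup p P ∧ A ≤ P ∧ P.map π ∈ τ}

lemma above_back [hp : Fact p.Prime] (hZ : Z ≤ Subgroup.center G) (hS : IsSylowOf p A Z)
    (hY : π.ker ≤ Z) {τ : Set (Subgroup G')} (h : IsChainAbove p (A.map π) τ) :
    IsChainAbove p A (back π p A τ) := by
  constructor
  · rintro P ⟨h1, h2, h3⟩ Q ⟨h4, h5, h6⟩ _
    rcases h.1.total h3 h6 with h7 | h7
    · exact Or.inl (le_of_map π hZ hS hY h1 h4 h5 h7)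
    · exact Or.inr (le_of_map π hZ hS hY h4 h1 h2 h7)
  · rintro P ⟨h1, h2, h3⟩
    refine ⟨h1, lt_of_le_of_ne h2 ?_⟩
    rintro rfl
    exact (h.2 _ h3).2.ne rfl

lemma image_back [hp : Fact p.Prime] (hπ : Function.Surjective π) (hpA : IsPGroup p A)
    {τ : Set (Subgroup G')} (h : IsChainAbove p (A.map π) τ) :
    (Subgroup.map π) '' (back π p A τ) = τ := by
  ext P'
  constructor
  · rintro ⟨P, ⟨_, _, h3⟩, rfl⟩
    exact h3
  · intro hP'
    obtain ⟨P, h1, h2, rfl⟩ := exists_lift π hπ hpA (h.2 P' hP').1 (h.2 P' hP').2.le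
    exact ⟨P, ⟨h1, h2, hP'⟩, rfl⟩

lemma back_image [hp : Fact p.Prime] (hZ : Z ≤ Subgroup.center G) (hS : IsSylowOf p A Z)
    (hY : π.ker ≤ Z) {σ : Set (Subgroup G)} (h : IsChainAbove p A σ) :
    back π p A ((Subgroup.map π) '' σ) = σ := by
  ext P
  constructor
  · rintro ⟨h1, h2, Q, hQ, hQP⟩
    have h3 := eq_of_map π hZ hS hY (h.2 Q hQ).1 h1 (h.2 Q hQ).2.le h2 hQP
    rwa [← h3]
  · intro hP
    exact ⟨(h.2 P hP).1, (h.2 P hP).2.le, P, hP, rfl⟩

lemma stab_image [hp : Fact p.Prime] (hπ : Function.Surjective π) (hZ : Z ≤ Subgroup.center G)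
    (hS : IsSylowOf p A Z) (hY : π.ker ≤ Z) {σ : Set (Subgroup G)} (h : IsChainAbove p A σ) :
    chainStabilizer ((Subgroup.map π) '' σ) = (chainStabilizer σ).map π := by
  have hAn : A.Normal := normal_of_center (hS.le.trans hZ)
  rw [← Subgroup.map_comap_eq_self_of_surjective hπ (chainStabilizer ((Subgroup.map π) '' σ))]
  congr 1
  ext x
  rw [Subgroup.mem_comap, mem_chainStabilizer, mem_chainStabilizer]
  constructor
  · intro h1 P hP
    have h2 := h1 (P.map π) ⟨P, hP, rfl⟩
    rw [conjSub_map] at h2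
    have h3 := (h.conj x).2 (conjSub x P) ⟨P, hP, rfl⟩
    exact eq_of_map π hZ hS hY h3.1 (h.2 P hP).1 h3.2.le (h.2 P hP).2.le h2
  · rintro h1 _ ⟨P, hP, rfl⟩
    rw [conjSub_map, h1 P hP]

theorem altC_quot [hp : Fact p.Prime] (hπ : Function.Surjective π) (hZ : Z ≤ Subgroup.center G)
    (hS : IsSylowOf p A Z) (hY : π.ker ≤ Z) (f : Set (Subgroup G) → ℤ)
    (f' : Set (Subgroup G') → ℤ)
    (hf : ∀ (g : G) (σ : Set (Subgroup G)), IsChainAbove p A σ → f (conjSub g '' σ) = f σ)
    (hf' : ∀ (g : G') (σ : Set (Subgroup G')), IsChainAbove p (A.map π) σ →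
      f' (conjSub g '' σ) = f' σ)
    (hff : ∀ σ : Set (Subgroup G), IsChainAbove p A σ → f σ = f' ((Subgroup.map π) '' σ)) :
    altC p A f = altC p (A.map π) f' := by
  have : Fintype {σ : Set (Subgroup G) // IsChainAbove p A σ} := Fintype.ofFinite _
  have : Fintype {σ : Set (Subgroup G') // IsChainAbove p (A.map π) σ} := Fintype.ofFinite _
  have hn : A.Normal := normal_of_center (hS.le.trans hZ)
  have hn' : (A.map π).Normal := normal_of_center (map_center π hπ (hS.le.trans hZ))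
  have h1 := card_mul_altC (p := p) (A := A) f hf
  have h2 := card_mul_altC (p := p) (A := A.map π) f' hf'
  have hcard : Nat.card G = Nat.card π.ker * Nat.card G' := by
    have h3 := card_map π (H := ⊤) le_top
    rw [Subgroup.map_top_of_surjective π hπ] at h3
    rw [← Subgroup.card_top (G := G), h3, Subgroup.card_top]
  have h3 : ∑ σ : {σ : Set (Subgroup G) // IsChainAbove p A σ},
        (-1 : ℤ) ^ σ.1.ncard * ((Nat.card (chainStabilizer σ.1) : ℤ) * f σ.1) =
      (Nat.card π.ker : ℤ) * ∑ σ : {σ : Set (Subgroup G') // IsChainAbove p (A.map π) σ},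
        (-1 : ℤ) ^ σ.1.ncard * ((Nat.card (chainStabilizer σ.1) : ℤ) * f' σ.1) := by
    rw [Finset.mul_sum]
    refine Finset.sum_bij' (fun σ _ => ⟨(Subgroup.map π) '' σ.1, above_image π hZ hS hY σ.2⟩)
      (fun σ _ => ⟨back π p A σ.1, above_back π hZ hS hY σ.2⟩) ?_ ?_ ?_ ?_ ?_
    · intro σ _
      exact Finset.mem_univ _
    · intro σ _
      exact Finset.mem_univ _
    · intro σ _
      exact Subtype.ext (back_image π hZ hS hY σ.2)
    · intro σ _
      exact Subtype.ext (image_back π hπ hS.pgroup σ.2)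
    · intro σ _
      have h4 : ((Subgroup.map π) '' σ.1).ncard = σ.1.ncard := by
        apply Set.ncard_image_of_injOn
        intro P hP Q hQ h
        exact eq_of_map π hZ hS hY (σ.2.2 P hP).1 (σ.2.2 Q hQ).1 (σ.2.2 P hP).2.le
          (σ.2.2 Q hQ).2.le h
      have h5 : π.ker ≤ chainStabilizer σ.1 := hY.trans (center_le_stab hZ σ.1)
      simp only []
      rw [h4, stab_image π hπ hZ hS hY σ.2, card_map π h5, hff σ.1 σ.2]
      push_cast
      ring
  rw [h3, ← h2, hcard] at h1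
  push_cast at h1
  have h6 : (Nat.card π.ker : ℤ) ≠ 0 := by exact_mod_cast Nat.card_pos.ne'
  have h7 : (Nat.card G' : ℤ) ≠ 0 := by exact_mod_cast Nat.card_pos.ne'
  have h8 : (Nat.card π.ker : ℤ) * ((Nat.card G' : ℤ) * altC p A f) =
      (Nat.card π.ker : ℤ) * ((Nat.card G' : ℤ) * altC p (A.map π) f') := by
    rw [← h1]
    ring
  exact mul_left_cancel₀ h7 (mul_left_cancel₀ h6 h8)

end quot

end Pool.Agent.X209.NB
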