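import Pool.Agent.X209.CC.Cnt
import Mathlib.NumberTheory.ArithmeticFunction.Moebius

/-!
# Moebius inversion over the linear characters of a finite group
-/

open scoped Classical BigOperators
open Pool.Agent.X209.CC

set_option linter.unusedSectionVars false
set_option linter.unusedVariables false

noncomputable section

namespace Pool.Agent.X209.NB

variable {W : Type} [Group W] [Finite W]

lemma exists_primroot (nu : W →* ℂˣ) : ∃ a0 : W, IsPrimitiveRoot (nu a0) (orderOf nu) ∧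
    ∀ a : W, ∃ i : ℕ, nu a = nu a0 ^ i := by
  have hfin : Finite nu.range := by
    have : Finite (Set.range nu) := Set.finite_range nu
    exact this
  have hcyc : IsCyclic nu.range := subgroup_units_cyclic nu.range
  obtain ⟨⟨ε, hε⟩, hgen⟩ := hcyc.exists_generator
  obtain ⟨a0, rfl⟩ := MonoidHom.mem_range.mp hε
  have hgen' : ∀ a : W, ∃ i : ℕ, nu a = nu a0 ^ i := by
    intro a
    have h1 := hgen ⟨nu a, ⟨a, rfl⟩⟩
    have hfo : IsOfFinOrder (⟨nu a0, hε⟩ : nu.range) := isOfFinOrder_of_finite _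
    obtain ⟨i, hi⟩ := (hfo.mem_powers_iff_mem_zpowers).mpr h1
    exact ⟨i, (congrArg Subtype.val hi).symm⟩
  refine ⟨a0, ?_, hgen'⟩
  have h2 : orderOf (nu a0) = orderOf nu := by
    apply Nat.dvd_antisymm
    · apply orderOf_dvd_of_pow_eq_one
      have h3 := pow_orderOf_eq_one nu
      have h4 := congrArg (fun f : W →* ℂˣ => f a0) h3
      exact h4
    · apply orderOf_dvd_of_pow_eq_one
      refine MonoidHom.ext fun a => ?_
      rw [MonoidHom.pow_apply, MonoidHom.one_apply]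
      obtain ⟨i, hi⟩ := hgen' a
      rw [hi, ← pow_mul, mul_comm, pow_mul, pow_orderOf_eq_one, one_pow]
  rw [← h2]
  exact IsPrimitiveRoot.orderOf _

lemma pow_of_ker_le {nu mu : W →* ℂˣ} (h : nu.ker ≤ mu.ker) : ∃ i < orderOf nu, mu = nu ^ i := by
  obtain ⟨a0, h1, h2⟩ := exists_primroot nu
  have hn : orderOf nu ≠ 0 := (orderOf_pos nu).ne'
  have hne : NeZero (orderOf nu) := ⟨hn⟩
  have h3 : mu a0 ^ orderOf nu = 1 := by
    rw [← map_pow, ← MonoidHom.mem_ker]
    apply h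
    rw [MonoidHom.mem_ker, map_pow]
    exact h1.pow_eq_one
  obtain ⟨i, hi, hi2⟩ := (IsPrimitiveRoot.coe_units_iff.mpr h1).eq_pow_of_pow_eq_one
    (ξ := ((mu a0 : ℂˣ) : ℂ)) (by rw [← Units.val_pow_eq_pow_val, h3, Units.val_one])
  have hi3 : nu a0 ^ i = mu a0 := Units.ext (by rw [Units.val_pow_eq_pow_val]; exact hi2)
  refine ⟨i, hi, MonoidHom.ext fun a => ?_⟩
  obtain ⟨j, hj⟩ := h2 a
  have h4 : a * (a0 ^ j)⁻¹ ∈ nu.ker := by
    rw [MonoidHom.mem_ker, map_mul, map_inv, map_pow, hj, mul_inv_cancel]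
  have h5 := h h4
  rw [MonoidHom.mem_ker, map_mul, map_inv, map_pow, mul_inv_eq_one] at h5
  rw [h5, MonoidHom.pow_apply, hj, ← hi3, ← pow_mul, ← pow_mul, mul_comm]

lemma sum_LamW [Fintype (W →* ℂˣ)] (c : (W →* ℂˣ) → ℤ) (nu : W →* ℂˣ) :
    ∑ mu ∈ LamW nu.ker, c mu = ∑ i ∈ Finset.range (orderOf nu), c (nu ^ i) := by
  symm
  refine Finset.sum_nbij (fun i => nu ^ i) ?_ ?_ ?_ ?_
  · intro i _
    rw [LamW, Finset.mem_filter]
    refine ⟨Finset.mem_univ _, fun a ha => ?_⟩
    rw [MonoidHom.mem_ker] at ha ⊢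
    rw [MonoidHom.pow_apply, ha, one_pow]
  · intro i hi j hj h
    simp only [Finset.coe_range, Set.mem_Iio] at hi hj
    exact pow_injOn_Iio_orderOf hi hj h
  · intro mu hmu
    have h1 := (Finset.mem_filter.mp (Finset.mem_coe.mp hmu)).2
    obtain ⟨i, hi, rfl⟩ := pow_of_ker_le h1
    exact ⟨i, by simpa using hi, rfl⟩
  · intro i _
    rfl

lemma ker_pow_coprime {nu : W →* ℂˣ} {j : ℕ} (h : Nat.Coprime (orderOf nu) j) :
    (nu ^ j).ker = nu.ker := by
  apply le_antisymm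
  · intro a ha
    rw [MonoidHom.mem_ker] at ha ⊢
    rw [MonoidHom.pow_apply] at ha
    have h1 : orderOf (nu a) ∣ orderOf nu := by
      apply orderOf_dvd_of_pow_eq_one
      exact congrArg (fun f : W →* ℂˣ => f a) (pow_orderOf_eq_one nu)
    have h2 : orderOf (nu a) ∣ j := orderOf_dvd_of_pow_eq_one ha
    have h3 := Nat.dvd_gcd h1 h2
    rw [h] at h3
    exact orderOf_eq_one_iff.mp (Nat.dvd_one.mp h3)
  · intro a ha
    rw [MonoidHom.mem_ker] at ha ⊢
    rw [MonoidHom.pow_apply, ha, one_pow]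

lemma sum_moebius_gcd {n : ℕ} (hn : n ≠ 0) (j : ℕ) :
    ∑ m ∈ n.divisors.filter (fun m => m ∣ j), ArithmeticFunction.moebius m =
      if Nat.Coprime n j then 1 else 0 := by
  have h1 : n.divisors.filter (fun m => m ∣ j) = (Nat.gcd n j).divisors := by
    ext m
    rw [Finset.mem_filter, Nat.mem_divisors, Nat.mem_divisors, Nat.dvd_gcd_iff]
    constructor
    · rintro ⟨⟨h2, _⟩, h3⟩
      exact ⟨⟨h2, h3⟩, Nat.gcd_ne_zero_left hn⟩
    · rintro ⟨⟨h2, h3⟩, _⟩
      exact ⟨⟨h2, hn⟩, h3⟩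
  rw [h1]
  rw [← ArithmeticFunction.coe_mul_zeta_apply, ArithmeticFunction.moebius_mul_coe_zeta,
    ArithmeticFunction.one_apply]

theorem moebius_formula [Fintype (W →* ℂˣ)] (c : (W →* ℂˣ) → ℤ)
    (hc : ∀ lam mu : W →* ℂˣ, lam.ker = mu.ker → c lam = c mu) (lam : W →* ℂˣ) :
    (Nat.totient (orderOf lam) : ℤ) * c lam = ∑ m ∈ (orderOf lam).divisors,
      ArithmeticFunction.moebius m * ∑ mu ∈ LamW (lam ^ m).ker, c mu := by
  set n := orderOf lam with hn
  have hn0 : n ≠ 0 := (orderOf_pos lam).ne'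
  have h1 : ∀ m ∈ n.divisors, ∑ mu ∈ LamW (lam ^ m).ker, c mu =
      ∑ j ∈ (Finset.range n).filter (fun j => m ∣ j), c (lam ^ j) := by
    intro m hm
    obtain ⟨k, hk⟩ := (Nat.mem_divisors.mp hm).1
    have hm0 : m ≠ 0 := by
      rintro rfl
      rw [zero_mul] at hk
      exact hn0 hk
    have hord : orderOf (lam ^ m) = k := by
      rw [orderOf_pow' lam hm0, ← hn, hk, Nat.gcd_comm, Nat.gcd_mul_right_right,
        Nat.mul_div_cancel_left _ (Nat.pos_of_ne_zero hm0)]
    rw [sum_LamW, hord]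
    refine Finset.sum_nbij' (fun i => m * i) (fun j => j / m) ?_ ?_ ?_ ?_ ?_
    · intro i hi
      rw [Finset.mem_filter, Finset.mem_range]
      refine ⟨?_, Nat.dvd_mul_right m i⟩
      rw [hk]
      exact Nat.mul_lt_mul_of_pos_left (Finset.mem_range.mp hi) (Nat.pos_of_ne_zero hm0)
    · intro j hj
      obtain ⟨h2, h3⟩ := Finset.mem_filter.mp hj
      rw [Finset.mem_range] at h2 ⊢
      rw [hk] at h2
      exact Nat.div_lt_of_lt_mul h2
    · intro i _
      exact Nat.mul_div_cancel_left _ (Nat.pos_of_ne_zero hm0)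
    · intro j hj
      exact Nat.mul_div_cancel' (Finset.mem_filter.mp hj).2
    · intro i _
      congr 1
      refine MonoidHom.ext fun a => ?_
      rw [MonoidHom.pow_apply, MonoidHom.pow_apply, MonoidHom.pow_apply, pow_mul]
  rw [Finset.sum_congr rfl fun m hm => by rw [h1 m hm, Finset.mul_sum]]
  simp_rw [Finset.sum_filter]
  rw [Finset.sum_comm]
  have h2 : ∀ j ∈ Finset.range n, (∑ m ∈ n.divisors, if m ∣ j then
      ArithmeticFunction.moebius m * c (lam ^ j) else 0) =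
      if Nat.Coprime n j then c lam else 0 := by
    intro j _
    rw [← Finset.sum_filter, ← Finset.sum_mul, sum_moebius_gcd hn0]
    split_ifs with h3
    · rw [one_mul]
      exact hc _ _ (ker_pow_coprime h3)
    · rw [zero_mul]
  rw [Finset.sum_congr rfl h2, ← Finset.sum_filter, Finset.sum_const, nsmul_eq_mul]
  rfl

end Pool.Agent.X209.NB
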