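import Pool.Agent.X209.NB.Alt
import Pool.Agent.X209.NB.Mob

/-!
# Counting characters of chain stabilisers over central characters
-/

open scoped Classical BigOperators
open Pool.Agent.Y63.KR Pool.Agent.Helper884.IC Pool.Agent.Y63.AWC
open Pool.Agent.X209.PJ Pool.Agent.X209.CC

set_option linter.unusedSectionVars false
set_option linter.unusedVariables false

noncomputable section

namespace Pool.Agent.X209.NB

variable {p : ℕ} {G : Type} [Group G] [Finite G] {A Z : Subgroup G}

/-- a property of the functions on the stabilisers of the chains -/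
abbrev Fam (G : Type) [Group G] : Type := ∀ σ : Set (Subgroup G), (chainStabilizer σ → ℂ) → Prop

/-- the number of the irreducible characters of `G_σ` with the property `Q` -/
def kAll (Q : Fam G) (σ : Set (Subgroup G)) : ℕ :=
  Nat.card {χ : chainStabilizer σ → ℂ // IsIrrChar χ ∧ Q σ χ}

/-- the number of the irreducible characters of `G_σ` over `lam` with the property `Q` -/
def kOver (Q : Fam G) (lam : Z →* ℂˣ) (σ : Set (Subgroup G)) : ℕ :=
  Nat.card {χ : chainStabilizer σ → ℂ // IsIrrChar χ ∧ Over lam χ ∧ Q σ χ}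

/-- conjugation -/
def cjE (g : G) (σ : Set (Subgroup G)) :
    chainStabilizer σ ≃* chainStabilizer (conjSub g '' σ) :=
  ((chainStabilizer σ).equivMapOfInjective (MulAut.conj g).toMonoidHom
    (MulAut.conj g).injective).trans (MulEquiv.subgroupCongr (chainStabilizer_conj σ g).symm)

lemma cjE_val (g : G) (σ : Set (Subgroup G)) (x : chainStabilizer σ) :
    ((cjE g σ x : chainStabilizer (conjSub g '' σ)) : G) = g * x * g⁻¹ := rfl

/-- `Q` is compatible with conjugation -/
def Natural (p : ℕ) (A : Subgroup G) (Q : Fam G) : Prop :=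
  ∀ (g : G) (σ : Set (Subgroup G)), IsChainAbove p A σ →
    ∀ χ : chainStabilizer (conjSub g '' σ) → ℂ, IsIrrChar χ → Q (conjSub g '' σ) χ →
      Q σ (fun x => χ (cjE g σ x))

lemma conj_back (g : G) (σ : Set (Subgroup G)) : conjSub g⁻¹ '' (conjSub g '' σ) = σ := by
  rw [← Set.image_comp]
  have : conjSub g⁻¹ ∘ conjSub g = (id : Subgroup G → Subgroup G) := funext fun P => by
    rw [Function.comp_apply, ← conjSub_mul, inv_mul_cancel, conjSub_one, id]
  rw [this, Set.image_id]

lemma kOver_le {Q : Fam G} (hZ : Z ≤ Subgroup.center G) (hA : A.Normal) (hQ : Natural p A Q)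
    (lam : Z →* ℂˣ) (g : G)
    {σ : Set (Subgroup G)} (hσ : IsChainAbove p A σ) :
    kOver Q lam (conjSub g '' σ) ≤ kOver Q lam σ := by
  unfold kOver
  have hfin := finite_irr (H := chainStabilizer σ) (fun χ => Over lam χ ∧ Q σ χ)
  refine Nat.card_le_card_of_injective (fun χ => ⟨fun x => χ.1 (cjE g σ x), ?_⟩) ?_
  · obtain ⟨χ, h1, h2, h3⟩ := χ
    refine ⟨irr_comp (cjE g σ) h1, ?_, hQ g σ hσ χ h1 h3⟩
    intro a x y hxy
    apply h2 a
    rw [cjE_val, cjE_val, hxy]
    have h5 := Subgroup.mem_center_iff.mp (hZ a.2) g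
    rw [← mul_assoc, h5]
    group
  · intro χ ψ h
    apply Subtype.ext
    funext x
    have h1 := congrFun (congrArg Subtype.val h) ((cjE g σ).symm x)
    simp only [(cjE g σ).apply_symm_apply] at h1
    exact h1

lemma kOver_conj {Q : Fam G} (hZ : Z ≤ Subgroup.center G) [hA : A.Normal] (hQ : Natural p A Q)
    (lam : Z →* ℂˣ) (g : G) (σ : Set (Subgroup G)) (hσ : IsChainAbove p A σ) :
    kOver Q lam (conjSub g '' σ) = kOver Q lam σ := by
  apply le_antisymm (kOver_le hZ hA hQ lam g hσ)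
  have h := kOver_le hZ hA hQ lam g⁻¹ (hσ.conj g)
  rwa [conj_back] at h

lemma kAll_le {Q : Fam G} (hA : A.Normal) (hQ : Natural p A Q) (g : G)
    {σ : Set (Subgroup G)} (hσ : IsChainAbove p A σ) :
    kAll Q (conjSub g '' σ) ≤ kAll Q σ := by
  unfold kAll
  have hfin := finite_irr (H := chainStabilizer σ) (fun χ => Q σ χ)
  refine Nat.card_le_card_of_injective (fun χ => ⟨fun x => χ.1 (cjE g σ x), ?_⟩) ?_
  · obtain ⟨χ, h1, h3⟩ := χ
    exact ⟨irr_comp (cjE g σ) h1, hQ g σ hσ χ h1 h3⟩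
  · intro χ ψ h
    apply Subtype.ext
    funext x
    have h1 := congrFun (congrArg Subtype.val h) ((cjE g σ).symm x)
    simp only [(cjE g σ).apply_symm_apply] at h1
    exact h1

lemma kAll_conj {Q : Fam G} [hA : A.Normal] (hQ : Natural p A Q) (g : G)
    (σ : Set (Subgroup G)) (hσ : IsChainAbove p A σ) :
    kAll Q (conjSub g '' σ) = kAll Q σ := by
  apply le_antisymm (kAll_le hA hQ g hσ)
  have h := kAll_le hA hQ g⁻¹ (hσ.conj g)
  rwa [conj_back] at h

/-- the inclusion of `Z` in the stabiliser -/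
def inc (hZ : Z ≤ Subgroup.center G) (σ : Set (Subgroup G)) : Z →* chainStabilizer σ :=
  Subgroup.inclusion (center_le_stab hZ σ)

lemma inc_comm (hZ : Z ≤ Subgroup.center G) (σ : Set (Subgroup G)) (w : Z)
    (g : chainStabilizer σ) : inc hZ σ w * g = g * inc hZ σ w :=
  Subtype.ext (Subgroup.mem_center_iff.mp (hZ w.2) g).symm

lemma kOver_eq (hZ : Z ≤ Subgroup.center G) (Q : Fam G) (lam : Z →* ℂˣ)
    (σ : Set (Subgroup G)) : kOver Q lam σ = cnt (inc hZ σ) (Q σ) lam := by
  unfold kOver cnt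
  refine Nat.card_congr (Equiv.subtypeEquivRight fun χ => ?_)
  refine and_congr_right fun _ => and_congr_left fun _ => ?_
  constructor
  · intro h w x
    exact h w x _ rfl
  · intro h a x y hxy
    have h1 : y = inc hZ σ a * x := Subtype.ext hxy
    rw [h1]
    exact h a x

/-- stability under Galois conjugation -/
def GalStable (p : ℕ) (A : Subgroup G) (Q : Fam G) : Prop :=
  ∀ σ, IsChainAbove p A σ → Stable (Q σ)

lemma kOver_ker (hZ : Z ≤ Subgroup.center G) {Q : Fam G} (hQ : GalStable p A Q)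
    {lam mu : Z →* ℂˣ} (h : lam.ker = mu.ker) {σ : Set (Subgroup G)} (hσ : IsChainAbove p A σ) :
    kOver Q lam σ = kOver Q mu σ := by
  rw [kOver_eq hZ, kOver_eq hZ]
  exact cnt_ker _ (hQ σ hσ) h

section quot

variable {G' : Type} [Group G'] [Finite G'] (π : G →* G')

/-- the map of the stabilisers -/
def rho (σ : Set (Subgroup G)) :
    chainStabilizer σ →* chainStabilizer ((Subgroup.map π) '' σ) :=
  (π.comp (chainStabilizer σ).subtype).codRestrict _ (by
    intro x
    rw [mem_chainStabilizer]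
    rintro _ ⟨P, hP, rfl⟩
    change conjSub (π x) (P.map π) = P.map π
    rw [conjSub_map, mem_chainStabilizer.mp x.2 P hP])

lemma rho_val (σ : Set (Subgroup G)) (x : chainStabilizer σ) :
    ((rho π σ x : chainStabilizer ((Subgroup.map π) '' σ)) : G') = π x := rfl

/-- `Q` and `Q'` agree on inflated characters -/
def Compat (p : ℕ) (A : Subgroup G) (Q : Fam G) (Q' : Fam G') : Prop :=
  ∀ σ : Set (Subgroup G), IsChainAbove p A σ →
    ∀ ψ : chainStabilizer ((Subgroup.map π) '' σ) → ℂ, IsIrrChar ψ →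
      (Q σ (fun x => ψ (rho π σ x)) ↔ Q' ((Subgroup.map π) '' σ) ψ)

lemma rho_surj [hp : Fact p.Prime] (hπ : Function.Surjective π) (hZ : Z ≤ Subgroup.center G)
    (hS : IsSylowOf p A Z) (hY : π.ker ≤ Z) {σ : Set (Subgroup G)} (h : IsChainAbove p A σ) :
    Function.Surjective (rho π σ) := by
  rintro ⟨y, hy⟩
  rw [stab_image π hπ hZ hS hY h] at hy
  obtain ⟨x, hx, rfl⟩ := hy
  exact ⟨⟨x, hx⟩, rfl⟩

lemma rho_ker (hZ : Z ≤ Subgroup.center G) (hY : π.ker ≤ Z) (σ : Set (Subgroup G)) :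
    (rho π σ).ker = (π.ker.subgroupOf Z).map (inc hZ σ) := by
  ext x
  rw [MonoidHom.mem_ker]
  constructor
  · intro h
    have h1 : (x : G) ∈ π.ker := by
      rw [MonoidHom.mem_ker]
      exact congrArg Subtype.val h
    exact ⟨⟨x, hY h1⟩, Subgroup.mem_subgroupOf.mpr h1, rfl⟩
  · rintro ⟨z, hz, rfl⟩
    apply Subtype.ext
    exact MonoidHom.mem_ker.mp (Subgroup.mem_subgroupOf.mp hz)

theorem sum_over [hp : Fact p.Prime] [Fintype (Z →* ℂˣ)] (hπ : Function.Surjective π)
    (hZ : Z ≤ Subgroup.center G) (hS : IsSylowOf p A Z) (hY : π.ker ≤ Z) {Q : Fam G} {Q' : Fam G'}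
    (hQQ : Compat π p A Q Q') {σ : Set (Subgroup G)} (h : IsChainAbove p A σ) :
    ∑ lam ∈ LamW (π.ker.subgroupOf Z), kOver Q lam σ = kAll Q' ((Subgroup.map π) '' σ) := by
  rw [Finset.sum_congr rfl fun lam _ => kOver_eq hZ Q lam σ,
    ← cntTriv_eq (inc hZ σ) (inc_comm hZ σ) (Q σ),
    cnt_infl (rho π σ) (rho_surj π hπ hZ hS hY h) (inc hZ σ) _ (rho_ker π hZ hY σ)]
  unfold kAll
  refine Nat.card_congr (Equiv.subtypeEquivRight fun ψ => ?_)
  exact and_congr_right fun hψ => hQQ σ h ψ hψ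

/-- **The sum over the characters of `Z` trivial on the kernel.** -/
theorem altC_sum_over [hp : Fact p.Prime] [Fintype (Z →* ℂˣ)] (hπ : Function.Surjective π)
    (hZ : Z ≤ Subgroup.center G) (hS : IsSylowOf p A Z) (hY : π.ker ≤ Z) {Q : Fam G} {Q' : Fam G'}
    (hN : Natural p A Q) (hN' : Natural p (A.map π) Q') (hQQ : Compat π p A Q Q') :
    ∑ lam ∈ LamW (π.ker.subgroupOf Z), altC p A (fun σ => (kOver Q lam σ : ℤ)) =
      altC p (A.map π) (fun σ => (kAll Q' σ : ℤ)) := by
  have hn : A.Normal := normal_of_center (hS.le.trans hZ)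
  have hn' : (A.map π).Normal := normal_of_center (map_center π hπ (hS.le.trans hZ))
  rw [← altC_sum]
  apply altC_quot π hπ hZ hS hY
  · intro g σ hσ
    refine Finset.sum_congr rfl fun lam _ => ?_
    rw [kOver_conj hZ hN lam g σ hσ]
  · intro g σ hσ
    rw [kAll_conj hN' g σ hσ]
  · intro σ hσ
    rw [← sum_over π hπ hZ hS hY hQQ hσ]
    push_cast
    rfl

end quot

end Pool.Agent.X209.NB
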