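import Pool.Agent.X209.NB.Lab

/-!
# Families given by stabilisers in a group acting on `G`
-/

open scoped Classical BigOperators
open Pool.Agent.Y63.KR Pool.Agent.Helper884.IC Pool.Agent.Y63.AWC
open Pool.Agent.X209.PJ Pool.Agent.X209.CC

set_option linter.unusedSectionVars false
set_option linter.unusedVariables false

noncomputable section

namespace Pool.Agent.X209.NB

variable {p : ℕ} {G : Type} [Group G] [Finite G] {A Z : Subgroup G} {Γ : Type} [Group Γ]

/-- the automorphism `α` of `G` fixes the chain `σ` and the character `χ` of `G_σ` -/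
def FixAut (σ : Set (Subgroup G)) (χ : chainStabilizer σ → ℂ) (α : MulAut G) : Prop :=
  (∀ P ∈ σ, P.map α.toMonoidHom = P) ∧
    ∀ x y : chainStabilizer σ, (y : G) = α (x : G) → χ y = χ x

/-- some element of the coset `u G` fixes `σ` and `χ` -/
def InU (a : Γ →* MulAut G) (σ : Set (Subgroup G)) (χ : chainStabilizer σ → ℂ) (u : Γ) : Prop :=
  ∃ g : G, FixAut σ χ (a u * MulAut.conj g)

/-- the family of the characters with stabiliser `U` -/
def famU (a : Γ →* MulAut G) (U : Set Γ) : Fam G := fun σ χ => ∀ u : Γ, u ∈ U ↔ InU a σ χ u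

lemma mem_stab_aut {σ : Set (Subgroup G)} {α : MulAut G} (h : ∀ P ∈ σ, P.map α.toMonoidHom = P)
    {x : G} (hx : x ∈ chainStabilizer σ) : α x ∈ chainStabilizer σ := by
  rw [mem_chainStabilizer] at hx ⊢
  intro P hP
  have h1 := hx P hP
  have h2 := h P hP
  apply le_antisymm
  · rintro _ ⟨y, hy, rfl⟩
    rw [SetLike.mem_coe, ← h2] at hy
    obtain ⟨z, hz, rfl⟩ := hy
    have h3 : x * z * x⁻¹ ∈ P := by
      rw [← h1]
      exact ⟨z, hz, rfl⟩
    have h4 : α (x * z * x⁻¹) ∈ P := by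
      rw [← h2]
      exact ⟨_, h3, rfl⟩
    change α x * α z * (α x)⁻¹ ∈ P
    rw [map_mul, map_mul, map_inv] at h4
    exact h4
  · intro y hy
    rw [← h2] at hy
    obtain ⟨z, hz, rfl⟩ := hy
    rw [SetLike.mem_coe, ← h1] at hz
    obtain ⟨w, hw, rfl⟩ := hz
    refine ⟨α w, ?_, ?_⟩
    · rw [SetLike.mem_coe, ← h2]
      exact ⟨w, hw, rfl⟩
    · change α x * α w * (α x)⁻¹ = α (x * w * x⁻¹)
      rw [map_mul, map_mul, map_inv]

lemma fix_conj (g : G) (σ : Set (Subgroup G)) (χ : chainStabilizer (conjSub g '' σ) → ℂ)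
    (α : MulAut G) : FixAut (conjSub g '' σ) χ α ↔
      FixAut σ (fun x => χ (cjE g σ x)) (MulAut.conj g⁻¹ * α * MulAut.conj g) := by
  have hval : ∀ x : G, (MulAut.conj g⁻¹ * α * MulAut.conj g) x = g⁻¹ * α (g * x * g⁻¹) * g := by
    intro x
    rw [MulAut.mul_apply, MulAut.mul_apply, MulAut.conj_apply, MulAut.conj_apply, inv_inv]
  constructor
  · rintro ⟨h1, h2⟩
    refine ⟨fun P hP => ?_, fun x y hxy => ?_⟩
    · have h3 := h1 (conjSub g P) ⟨P, hP, rfl⟩
      apply le_antisymm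
      · rintro _ ⟨x, hx, rfl⟩
        change (MulAut.conj g⁻¹ * α * MulAut.conj g) x ∈ P
        rw [hval]
        have h4 : α (g * x * g⁻¹) ∈ conjSub g P := by
          rw [← h3]
          exact ⟨g * x * g⁻¹, ⟨x, hx, rfl⟩, rfl⟩
        obtain ⟨z, hz, hzx⟩ := h4
        have h5 : g * z * g⁻¹ = α (g * x * g⁻¹) := hzx
        rw [← h5]
        have : g⁻¹ * (g * z * g⁻¹) * g = z := by group
        rw [this]
        exact hz
      · intro x hx
        have h4 : g * x * g⁻¹ ∈ conjSub g P := ⟨x, hx, rfl⟩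
        rw [← h3] at h4
        obtain ⟨_, ⟨z, hz, rfl⟩, hzx⟩ := h4
        refine ⟨z, hz, ?_⟩
        change (MulAut.conj g⁻¹ * α * MulAut.conj g) z = x
        rw [hval]
        have h5 : α (g * z * g⁻¹) = g * x * g⁻¹ := hzx
        rw [h5]
        group
    · apply h2
      rw [cjE_val, cjE_val, hxy, hval]
      group
  · rintro ⟨h1, h2⟩
    refine ⟨?_, fun x y hxy => ?_⟩
    · rintro _ ⟨P, hP, rfl⟩
      have h3 := h1 P hP
      apply le_antisymm
      · rintro _ ⟨_, ⟨x, hx, rfl⟩, rfl⟩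
        change α (g * x * g⁻¹) ∈ conjSub g P
        have h4 : (MulAut.conj g⁻¹ * α * MulAut.conj g) x ∈ P := by
          rw [← h3]
          exact ⟨x, hx, rfl⟩
        rw [hval] at h4
        refine ⟨_, h4, ?_⟩
        change g * (g⁻¹ * α (g * x * g⁻¹) * g) * g⁻¹ = _
        group
      · rintro _ ⟨x, hx, rfl⟩
        rw [SetLike.mem_coe, ← h3] at hx
        obtain ⟨z, hz, rfl⟩ := hx
        refine ⟨g * z * g⁻¹, ⟨z, hz, rfl⟩, ?_⟩
        change α (g * z * g⁻¹) = g * (MulAut.conj g⁻¹ * α * MulAut.conj g) z * g⁻¹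
        rw [hval]
        group
    · have h3 := h2 ((cjE g σ).symm x) ((cjE g σ).symm y) ?_
      · simp only [(cjE g σ).apply_symm_apply] at h3
        exact h3
      · have hx := cjE_val g σ ((cjE g σ).symm x)
        have hy := cjE_val g σ ((cjE g σ).symm y)
        rw [(cjE g σ).apply_symm_apply] at hx hy
        rw [hval, ← hx, ← hxy, hy]
        group

lemma conj_move (α : MulAut G) (g h : G) :
    MulAut.conj g⁻¹ * (α * MulAut.conj h) * MulAut.conj g =
      α * MulAut.conj (α⁻¹ g⁻¹ * h * g) := by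
  ext x
  have h1 : α (α⁻¹ g) = g := by
    rw [← MulAut.mul_apply, mul_inv_cancel, MulAut.one_apply]
  simp only [MulAut.mul_apply, MulAut.conj_apply, inv_inv]
  simp only [map_mul, map_inv, mul_inv_rev, h1, inv_inv]
  group

lemma inU_conj (a : Γ →* MulAut G) (g : G) (σ : Set (Subgroup G))
    (χ : chainStabilizer (conjSub g '' σ) → ℂ) (u : Γ) :
    InU a (conjSub g '' σ) χ u ↔ InU a σ (fun x => χ (cjE g σ x)) u := by
  constructor
  · rintro ⟨h, hh⟩
    rw [fix_conj, conj_move] at hh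
    exact ⟨_, hh⟩
  · rintro ⟨h, hh⟩
    refine ⟨(a u)⁻¹ g * h * g⁻¹, ?_⟩
    rw [fix_conj, conj_move]
    have h1 : (a u)⁻¹ g⁻¹ * ((a u)⁻¹ g * h * g⁻¹) * g = h := by
      rw [map_inv]
      group
    rw [h1]
    exact hh

lemma famU_natural (a : Γ →* MulAut G) (U : Set Γ) : Natural p A (famU a U) := by
  intro g σ _ χ _ h u
  rw [← inU_conj]
  exact h u

lemma famU_stable (a : Γ →* MulAut G) (U : Set Γ) : GalStable p A (famU a U) := by
  intro σ _ τ χ _ h u
  rw [h u]
  refine exists_congr fun g => and_congr_right fun _ => ?_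
  refine forall_congr' fun x => forall_congr' fun y => imp_congr_right fun _ => ?_
  exact τ.injective.eq_iff.symm

lemma fix_image [hp : Fact p.Prime] {G' : Type} [Group G'] [Finite G'] (π : G →* G')
    (hπ : Function.Surjective π) (hZ : Z ≤ Subgroup.center G) (hS : IsSylowOf p A Z)
    (hY : π.ker ≤ Z) {σ : Set (Subgroup G)} (hσ : IsChainAbove p A σ)
    (ψ : chainStabilizer ((Subgroup.map π) '' σ) → ℂ) (α : MulAut G) (α' : MulAut G')
    (hα : ∀ x, π (α x) = α' (π x)) (hA : A ≤ A.map α.toMonoidHom) :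
    FixAut σ (fun x => ψ (rho π σ x)) α ↔ FixAut ((Subgroup.map π) '' σ) ψ α' := by
  have hmap : ∀ P : Subgroup G, (P.map α.toMonoidHom).map π = (P.map π).map α'.toMonoidHom := by
    intro P
    rw [Subgroup.map_map, Subgroup.map_map]
    congr 1
    ext x
    exact hα x
  have hchain : (∀ P ∈ σ, P.map α.toMonoidHom = P) ↔
      ∀ P ∈ (Subgroup.map π) '' σ, P.map α'.toMonoidHom = P := by
    constructor
    · rintro h _ ⟨P, hP, rfl⟩
      rw [← hmap, h P hP]
    · intro h P hP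
      have h1 := h (P.map π) ⟨P, hP, rfl⟩
      rw [← hmap] at h1
      exact eq_of_map π hZ hS hY ((hσ.2 P hP).1.map _) (hσ.2 P hP).1
        (hA.trans (Subgroup.map_mono (hσ.2 P hP).2.le)) (hσ.2 P hP).2.le h1
  unfold FixAut
  rw [← hchain]
  refine and_congr_right fun hc => ?_
  constructor
  · intro h x' y' hxy
    obtain ⟨x, rfl⟩ := rho_surj π hπ hZ hS hY hσ x'
    have h1 : y' = rho π σ ⟨α x, mem_stab_aut hc x.2⟩ := by
      apply Subtype.ext
      rw [hxy, rho_val, rho_val, hα]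
    rw [h1]
    exact h x ⟨α x, mem_stab_aut hc x.2⟩ rfl
  · intro h x y hxy
    apply h
    rw [rho_val, rho_val, hxy, hα]

lemma inU_image [hp : Fact p.Prime] {G' : Type} [Group G'] [Finite G'] (π : G →* G')
    (hπ : Function.Surjective π) (hZ : Z ≤ Subgroup.center G) (hS : IsSylowOf p A Z)
    (hY : π.ker ≤ Z) {σ : Set (Subgroup G)} (hσ : IsChainAbove p A σ)
    (ψ : chainStabilizer ((Subgroup.map π) '' σ) → ℂ) (a : Γ →* MulAut G) (a' : Γ →* MulAut G')
    (ha : ∀ e x, π (a e x) = a' e (π x)) (hA : ∀ e : Γ, A ≤ A.map (a e).toMonoidHom) (u : Γ) :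
    InU a σ (fun x => ψ (rho π σ x)) u ↔ InU a' ((Subgroup.map π) '' σ) ψ u := by
  have hAn : A.Normal := normal_of_center (hS.le.trans hZ)
  have key : ∀ g : G, FixAut σ (fun x => ψ (rho π σ x)) (a u * MulAut.conj g) ↔
      FixAut ((Subgroup.map π) '' σ) ψ (a' u * MulAut.conj (π g)) := by
    intro g
    apply fix_image π hπ hZ hS hY hσ
    · intro x
      rw [MulAut.mul_apply, MulAut.mul_apply, MulAut.conj_apply, MulAut.conj_apply, ha]
      simp only [map_mul, map_inv]
    · have h1 : A.map (a u * MulAut.conj g).toMonoidHom = A.map (a u).toMonoidHom := by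
        have h2 : (a u * MulAut.conj g).toMonoidHom =
            (a u).toMonoidHom.comp (MulAut.conj g).toMonoidHom := by
          ext x
          rfl
        rw [h2, ← Subgroup.map_map]
        congr 1
        exact conj_normal (A := A) g
      rw [h1]
      exact hA u
  constructor
  · rintro ⟨g, hg⟩
    exact ⟨π g, (key g).mp hg⟩
  · rintro ⟨g', hg'⟩
    obtain ⟨g, rfl⟩ := hπ g'
    exact ⟨g, (key g).mpr hg'⟩

lemma famU_compat [hp : Fact p.Prime] {G' : Type} [Group G'] [Finite G'] (π : G →* G')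
    (hπ : Function.Surjective π) (hZ : Z ≤ Subgroup.center G) (hS : IsSylowOf p A Z)
    (hY : π.ker ≤ Z) (a : Γ →* MulAut G) (a' : Γ →* MulAut G')
    (ha : ∀ e x, π (a e x) = a' e (π x)) (hA : ∀ e : Γ, A ≤ A.map (a e).toMonoidHom)
    (U : Set Γ) : Compat π p A (famU a U) (famU a' U) := by
  intro σ hσ ψ hψ
  refine forall_congr' fun u => ?_
  rw [inU_image π hπ hZ hS hY hσ ψ a a' ha hA u]

/-! ### Conjunctions -/

/-- both properties -/
def both (Q R : Fam G) : Fam G := fun σ χ => Q σ χ ∧ R σ χ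

lemma both_natural {Q R : Fam G} (h1 : Natural p A Q) (h2 : Natural p A R) :
    Natural p A (both Q R) :=
  fun g σ hσ χ hχ h => ⟨h1 g σ hσ χ hχ h.1, h2 g σ hσ χ hχ h.2⟩

lemma both_stable {Q R : Fam G} (h1 : GalStable p A Q) (h2 : GalStable p A R) :
    GalStable p A (both Q R) :=
  fun σ hσ τ χ hχ h => ⟨h1 σ hσ τ χ hχ h.1, h2 σ hσ τ χ hχ h.2⟩

lemma both_compat {G' : Type} [Group G'] [Finite G'] {π : G →* G'} {Q R : Fam G} {Q' R' : Fam G'}
    (h1 : Compat π p A Q Q') (h2 : Compat π p A R R') : Compat π p A (both Q R) (both Q' R') :=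
  fun σ hσ ψ hψ => and_congr (h1 σ hσ ψ hψ) (h2 σ hσ ψ hψ)

end Pool.Agent.X209.NB
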