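import Pool.Agent.X209.NB.InvG

/-!
# Dade's invariant numbers: group by group
-/

open scoped Classical BigOperators
open Pool.Agent.Y63.KR Pool.Agent.Helper884.IC Pool.Agent.Y63.AWC
open Pool.Agent.X209.PJ Pool.Agent.X209.CC

set_option linter.unusedSectionVars false
set_option linter.unusedVariables false

noncomputable section

namespace Pool.Agent.X209.NB

variable {p : ℕ} {E : Type} [Group E] [Finite E] {G : Subgroup E} [hG : G.Normal]
  {A Z : Subgroup G}

/-- the map of `G` to its image in `E / Y` -/
abbrev piQ (G : Subgroup E) (Y : Subgroup G) [(Y.map G.subtype).Normal] :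
    G →* G.map (QuotientGroup.mk' (Y.map G.subtype)) :=
  (QuotientGroup.mk' (Y.map G.subtype)).subgroupMap G

lemma piQ_ker (Y : Subgroup G) [(Y.map G.subtype).Normal] : (piQ G Y).ker = Y := by
  ext x
  rw [MonoidHom.mem_ker]
  constructor
  · intro h
    have h1 : QuotientGroup.mk' (Y.map G.subtype) (x : E) = 1 := congrArg Subtype.val h
    rw [← MonoidHom.mem_ker, QuotientGroup.ker_mk'] at h1
    exact (Subgroup.mem_map_iff_mem G.subtype_injective).mp h1
  · intro h
    apply Subtype.ext
    change QuotientGroup.mk' (Y.map G.subtype) (x : E) = 1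
    rw [← MonoidHom.mem_ker, QuotientGroup.ker_mk']
    exact ⟨x, h, rfl⟩

lemma center_of_center (hZE : Z.map G.subtype ≤ Subgroup.center E) : Z ≤ Subgroup.center G := by
  intro z hz
  rw [Subgroup.mem_center_iff]
  intro g
  apply Subtype.ext
  exact Subgroup.mem_center_iff.mp (hZE ⟨z, hz, rfl⟩) (g : E)

lemma A_fixed (hZE : Z.map G.subtype ≤ Subgroup.center E) (hAZ : A ≤ Z) (e : E) :
    A ≤ A.map (MulAut.conjNormal e : MulAut G).toMonoidHom := by
  intro a ha
  refine ⟨a, ha, ?_⟩
  apply Subtype.ext
  change ((MulAut.conjNormal e a : G) : E) = a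
  have h1 : e * (a : E) = (a : E) * e :=
    Subgroup.mem_center_iff.mp (hZE ⟨a, hAZ ha, rfl⟩) e
  rw [MulAut.conjNormal_apply, h1, mul_inv_cancel_right]

lemma image_normal (Y : Subgroup G) [(Y.map G.subtype).Normal] :
    (G.map (QuotientGroup.mk' (Y.map G.subtype))).Normal :=
  hG.map _ (QuotientGroup.mk'_surjective _)

/-- **The sum over the characters of `Z` which are trivial on `Y`.** -/
theorem sum_piQ [hp : Fact p.Prime] [Fintype (Z →* ℂˣ)] (hZE : Z.map G.subtype ≤ Subgroup.center E)
    (hS : IsSylowOf p A Z) (Y : Subgroup G) (hYn : (Y.map G.subtype).Normal) (hY : Y ≤ Z)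
    (U' : Subgroup (E ⧸ (Y.map G.subtype))) (d : ℕ) :
    ∑ lam ∈ LamW (Y.subgroupOf Z), altC p A (fun σ => (kInvLam p G
        (U'.comap (QuotientGroup.mk' (Y.map G.subtype))) lam
          (d + (Nat.card Y).factorization p) σ : ℤ)) =
      altC p (A.map (piQ G Y)) (fun σ =>
        (kInv p (G.map (QuotientGroup.mk' (Y.map G.subtype))) U' d σ : ℤ)) := by
  have hZ := center_of_center hZE
  have hn' := image_normal (G := G) Y
  have hker := piQ_ker (G := G) Y
  have h := sum_transfer (p := p) (A := A) (Z := Z) (QuotientGroup.mk' (Y.map G.subtype))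
    (QuotientGroup.mk'_surjective _) (MulAut.conjNormal : E →* MulAut G)
    (G.map (QuotientGroup.mk' (Y.map G.subtype))) (piQ G Y)
    ((QuotientGroup.mk' (Y.map G.subtype)).subgroupMap_surjective G)
    (fun e x => by
      change QuotientGroup.mk' (Y.map G.subtype) ((MulAut.conjNormal e x : G) : E) = _
      rw [MulAut.conjNormal_apply, map_mul, map_mul, map_inv]
      rfl) hZ hS (by rw [hker]; exact hY) (fun e => A_fixed hZE hS.le e) U' d
  have h2 : (Nat.card (piQ G Y).ker).factorization p = (Nat.card Y).factorization p := by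
    rw [hker]
  have h3 : (piQ G Y).ker.subgroupOf Z = Y.subgroupOf Z := by rw [hker]
  rw [h2, h3] at h
  rw [← h]
  refine Finset.sum_congr rfl fun lam _ => ?_
  apply altC_congr
  intro σ _
  rw [kInvLam_eq]
  rfl

/-- all equations of the quotient -/
def QuotEq (p : ℕ) (A : Subgroup G) (Y : Subgroup G) : Prop :=
  ∀ (_ : (Y.map G.subtype).Normal) (U' : Subgroup (E ⧸ (Y.map G.subtype))) (d : ℕ),
    (Nat.card (A.map (piQ G Y))).factorization p < d →
      altC p (A.map (piQ G Y)) (fun σ =>
        (kInv p (G.map (QuotientGroup.mk' (Y.map G.subtype))) U' d σ : ℤ)) = 0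

/-- **Group by group.** -/
theorem inv_local [hp : Fact p.Prime] (hZE : Z.map G.subtype ≤ Subgroup.center E)
    (hS : IsSylowOf p A Z) :
    (∀ (lam : Z →* ℂˣ) (U : Subgroup E) (d : ℕ), (Nat.card A).factorization p < d →
      altC p A (fun σ => (kInvLam p G U lam d σ : ℤ)) = 0) ↔
    ∀ Y : Subgroup G, Y ≤ Z → QuotEq p A Y := by
  have : Fintype (Z →* ℂˣ) := Fintype.ofFinite _
  have hZ := center_of_center hZE
  have hcard : ∀ (Y : Subgroup G) (hYn : (Y.map G.subtype).Normal), Y ≤ Z →
      (Nat.card A).factorization p = (Nat.card Y).factorization p +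
        (Nat.card (A.map (piQ G Y))).factorization p := by
    intro Y hYn hY
    have hker := piQ_ker (G := G) Y
    have h1 := card_A_quot (p := p) (A := A) (piQ G Y) hZ hS (by rw [hker]; exact hY)
    have h2 : (Nat.card (piQ G Y).ker).factorization p = (Nat.card Y).factorization p := by
      rw [hker]
    rw [h2] at h1
    exact h1
  constructor
  · intro h Y hY hYn U' d hd
    rw [← sum_piQ hZE hS Y hYn hY U' d]
    refine Finset.sum_eq_zero fun lam _ => ?_
    apply h
    rw [hcard Y hYn hY]
    omega
  · intro h lam U d hd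
    by_cases hGU : G ≤ U
    swap
    · exact altC_zero fun σ => kInvLam_zero hGU lam d σ
    refine vanish (fun mu : Z →* ℂˣ => altC p A (fun σ => (kInvLam p G U mu d σ : ℤ))) ?_ lam ?_
    · intro lam mu hk
      have h1 := altC_ker (p := p) (A := A) hZ
        (famDU_stable d (MulAut.conjNormal : E →* MulAut G) (U : Set E)) hk
      simp only [kInvLam_eq]
      exact h1
    · intro m
      have hKZ : kerG (lam ^ m) ≤ Z := kerG_le _
      have hYn : ((kerG (lam ^ m)).map G.subtype).Normal :=
        normal_of_center ((Subgroup.map_mono hKZ).trans hZE)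
      have hc := hcard (kerG (lam ^ m)) hYn hKZ
      obtain ⟨d', hd'⟩ : ∃ d', d = d' + (Nat.card (kerG (lam ^ m))).factorization p :=
        ⟨d - (Nat.card (kerG (lam ^ m))).factorization p, by omega⟩
      have h1 := h (kerG (lam ^ m)) hKZ hYn
        (U.map (QuotientGroup.mk' ((kerG (lam ^ m)).map G.subtype))) d' (by omega)
      rw [← sum_piQ hZE hS (kerG (lam ^ m)) hYn hKZ, subgroupOf_kerG] at h1
      have h2 : (U.map (QuotientGroup.mk' ((kerG (lam ^ m)).map G.subtype))).comap
          (QuotientGroup.mk' ((kerG (lam ^ m)).map G.subtype)) = U := by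
        apply Subgroup.comap_map_eq_self
        rw [QuotientGroup.ker_mk']
        exact (Subgroup.map_subtype_le _).trans hGU
      rw [h2, ← hd'] at h1
      exact h1

end Pool.Agent.X209.NB
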