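import Pool.Agent.X209.NB.Fam
import Pool.Agent.X209.PJ.Core
import Pool.Agent.Y63.AWC.Deg

/-!
# The families given by the values of `|G_σ| / χ(1)`
-/

open scoped Classical BigOperators
open Pool.Agent.Y63.KR Pool.Agent.Helper884.IC Pool.Agent.Y63.AWC
open Pool.Agent.X209.PJ Pool.Agent.X209.CC

set_option linter.unusedSectionVars false
set_option linter.unusedVariables false

noncomputable section

namespace Pool.Agent.X209.NB

variable {p : ℕ} {G : Type} [Group G] [Finite G] {A Z : Subgroup G}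

/-- `|H| / χ(1)` is in `T` -/
def Ratio (T : Set ℂ) {H : Type} [Group H] (χ : H → ℂ) : Prop := (Nat.card H : ℂ) / χ 1 ∈ T

/-- The number of the irreducible characters `χ` of `H` over `lam` with `|H| / χ(1) ∈ T`. -/
def kLam (T : Set ℂ) (lam : Z →* ℂˣ) (H : Subgroup G) : ℕ :=
  Nat.card {χ : H → ℂ // IsIrrChar χ ∧ Over lam χ ∧ Ratio T χ}

/-- The number of the irreducible characters `χ` of `H` with `|H| / χ(1) ∈ T`. -/
def kRat (T : Set ℂ) (H : Subgroup G) : ℕ :=
  Nat.card {χ : H → ℂ // IsIrrChar χ ∧ Ratio T χ}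

/-- the family -/
def famT (T : Set ℂ) : Fam G := fun _ χ => Ratio T χ

lemma famT_natural (T : Set ℂ) : Natural p A (famT (G := G) T) := by
  intro g σ _ χ _ h
  change (Nat.card (chainStabilizer σ) : ℂ) / χ (cjE g σ 1) ∈ T
  rw [map_one, Nat.card_congr (cjE g σ).toEquiv]
  exact h

lemma famT_stable (T : Set ℂ) : GalStable p A (famT (G := G) T) := by
  intro σ _ τ χ hχ h
  obtain ⟨n, _, hn⟩ := deg_nat hχ
  change (Nat.card (chainStabilizer σ) : ℂ) / τ (χ 1) ∈ T
  rw [hn, map_natCast, ← hn]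
  exact h

/-- the set of the values for the quotient -/
def scale (n : ℕ) (T : Set ℂ) : Set ℂ := {c | (n : ℂ) * c ∈ T}

lemma famT_compat [hp : Fact p.Prime] {G' : Type} [Group G'] [Finite G'] (π : G →* G')
    (hπ : Function.Surjective π)
    (hZ : Z ≤ Subgroup.center G) (hS : IsSylowOf p A Z) (hY : π.ker ≤ Z) (T : Set ℂ) :
    Compat π p A (famT T) (famT (scale (Nat.card π.ker) T)) := by
  intro σ hσ ψ hψ
  have h1 : Nat.card (chainStabilizer σ) =
      Nat.card π.ker * Nat.card (chainStabilizer ((Subgroup.map π) '' σ)) := by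
    rw [stab_image π hπ hZ hS hY hσ]
    exact card_map π (hY.trans (center_le_stab hZ σ))
  change (Nat.card (chainStabilizer σ) : ℂ) / ψ (rho π σ 1) ∈ T ↔
    (Nat.card π.ker : ℂ) * ((Nat.card (chainStabilizer ((Subgroup.map π) '' σ)) : ℂ) / ψ 1) ∈ T
  rw [map_one, h1]
  push_cast
  rw [mul_div_assoc]

lemma kLam_eq (T : Set ℂ) (lam : Z →* ℂˣ) :
    (fun σ : Set (Subgroup G) => (kLam T lam (chainStabilizer σ) : ℤ)) =
      fun σ => (kOver (famT T) lam σ : ℤ) := rfl

lemma kRat_eq (T : Set ℂ) :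
    (fun σ : Set (Subgroup G) => (kRat T (chainStabilizer σ) : ℤ)) =
      fun σ => (kAll (famT T) σ : ℤ) := rfl

/-- **The sum over the characters of `Z` which are trivial on `Y`.** -/
theorem sum_quot [hp : Fact p.Prime] [Fintype (Z →* ℂˣ)] {G' : Type} [Group G'] [Finite G']
    (π : G →* G') (hπ : Function.Surjective π)
    (hZ : Z ≤ Subgroup.center G) (hS : IsSylowOf p A Z) (hY : π.ker ≤ Z) (T : Set ℂ) :
    ∑ lam ∈ LamW (π.ker.subgroupOf Z), altAbove p A (fun H => (kLam T lam H : ℤ)) =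
      altAbove p (A.map π) (fun H => (kRat (scale (Nat.card π.ker) T) H : ℤ)) := by
  have h := altC_sum_over π hπ hZ hS hY (famT_natural (p := p) (A := A) T)
    (famT_natural (p := p) (A := A.map π) (scale (Nat.card π.ker) T))
    (famT_compat π hπ hZ hS hY T)
  exact h

/-- the alternating sums only depend on the kernel -/
theorem ker_eq (hZ : Z ≤ Subgroup.center G) (T : Set ℂ) {lam mu : Z →* ℂˣ}
    (h : lam.ker = mu.ker) :
    altAbove p A (fun H => (kLam T lam H : ℤ)) = altAbove p A (fun H => (kLam T mu H : ℤ)) := by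
  rw [altAbove_eq, altAbove_eq, kLam_eq, kLam_eq]
  apply altC_congr
  intro σ hσ
  rw [kOver_ker hZ (famT_stable (p := p) (A := A) T) h hσ]

lemma subgroupOf_kerG (lam : Z →* ℂˣ) : (kerG lam).subgroupOf Z = lam.ker := by
  ext a
  rw [Subgroup.mem_subgroupOf, mem_kerG]

/-- **The formula for a single character of `Z`.** -/
theorem formula [hp : Fact p.Prime] (hZ : Z ≤ Subgroup.center G) (hS : IsSylowOf p A Z)
    (T : Set ℂ) (lam : Z →* ℂˣ) (hN : ∀ m : ℕ, (kerG (lam ^ m)).Normal) :
    (Nat.totient (orderOf lam) : ℤ) * altAbove p A (fun H => (kLam T lam H : ℤ)) =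
      ∑ m ∈ (orderOf lam).divisors, ArithmeticFunction.moebius m *
        altAbove p (A.map (QuotientGroup.mk' (kerG (lam ^ m))))
          (fun H => (kRat (scale (Nat.card (kerG (lam ^ m))) T) H : ℤ)) := by
  have : Fintype (Z →* ℂˣ) := Fintype.ofFinite _
  rw [moebius_formula (fun lam : Z →* ℂˣ => altAbove p A (fun H => (kLam T lam H : ℤ)))
    (fun lam mu h => ker_eq hZ T h) lam]
  refine Finset.sum_congr rfl fun m _ => ?_
  congr 1
  have h := sum_quot (QuotientGroup.mk' (kerG (lam ^ m))) (QuotientGroup.mk'_surjective _) hZ hS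
    (by rw [QuotientGroup.ker_mk']; exact kerG_le _) T
  rw [QuotientGroup.ker_mk', subgroupOf_kerG] at h
  exact h

/-- **Group by group.** -/
theorem local_iff [hp : Fact p.Prime] (hZ : Z ≤ Subgroup.center G) (hS : IsSylowOf p A Z)
    (T : Set ℂ) :
    (∀ lam : Z →* ℂˣ, altAbove p A (fun H => (kLam T lam H : ℤ)) = 0) ↔
      ∀ Y : Subgroup G, Y ≤ Z → ∀ _ : Y.Normal,
        altAbove p (A.map (QuotientGroup.mk' Y)) (fun H => (kRat (scale (Nat.card Y) T) H : ℤ)) =
          0 := by
  have : Fintype (Z →* ℂˣ) := Fintype.ofFinite _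
  constructor
  · intro h Y hYZ hY
    have h1 := sum_quot (QuotientGroup.mk' Y) (QuotientGroup.mk'_surjective _) hZ hS
      (by rw [QuotientGroup.ker_mk']; exact hYZ) T
    rw [QuotientGroup.ker_mk'] at h1
    rw [← h1]
    exact Finset.sum_eq_zero fun lam _ => h lam
  · intro h lam
    have hN : ∀ m : ℕ, (kerG (lam ^ m)).Normal :=
      fun m => normal_of_center ((kerG_le _).trans hZ)
    have h1 := formula hZ hS T lam hN
    rw [Finset.sum_eq_zero (fun m _ => by rw [h _ (kerG_le _) (hN m), mul_zero])] at h1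
    refine (mul_eq_zero.mp h1).resolve_left ?_
    have h2 : 0 < Nat.totient (orderOf lam) := Nat.totient_pos.mpr (orderOf_pos lam)
    exact_mod_cast h2.ne'

/-! ### Defects -/

/-- the values for the defect `d` -/
def TDef (p d : ℕ) : Set ℂ := {c | ∃ n : ℕ, 0 < n ∧ c = (n : ℂ) ∧ n.factorization p = d}

lemma ratio_defect {H : Type} [Group H] [Finite H] {χ : H → ℂ} (h : IsIrrChar χ) (p d : ℕ) :
    Ratio (TDef p d) χ ↔ HasDefect p d χ := by
  obtain ⟨m, hm0, hm⟩ := deg_nat h
  obtain ⟨n, hn⟩ : m ∣ Nat.card H := by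
    have : Fintype H := Fintype.ofFinite H
    exact deg_dvd h hm
  have hH : Nat.card H ≠ 0 := Nat.card_pos.ne'
  have hn0 : n ≠ 0 := by
    rintro rfl
    exact hH (by rw [hn, mul_zero])
  have hmC : (m : ℂ) ≠ 0 := by exact_mod_cast hm0.ne'
  have hq : (Nat.card H : ℂ) / χ 1 = (n : ℂ) := by
    rw [hm, hn]
    push_cast
    field_simp
  have hf : (Nat.card H).factorization p = m.factorization p + n.factorization p := by
    rw [hn, Nat.factorization_mul hm0.ne' hn0, Finsupp.add_apply]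
  unfold Ratio HasDefect
  rw [hq]
  constructor
  · rintro ⟨k, _, hk, hkd⟩
    have h1 : n = k := by exact_mod_cast hk
    exact ⟨m, hm, by rw [hf, h1, hkd]⟩
  · rintro ⟨m', hm', hd⟩
    have h1 : m = m' := by
      rw [hm] at hm'
      exact_mod_cast hm'
    rw [← h1, hf] at hd
    exact ⟨n, Nat.pos_of_ne_zero hn0, rfl, by omega⟩

end Pool.Agent.X209.NB
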