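import Pool.Agent.X209.NB.Lab
import Pool.Agent.Y63.KR.Chi

/-!
# Equivariant Euler characteristics with discrete torsion
-/

open scoped Classical BigOperators
open Pool.Agent.Y63.KR Pool.Agent.Helper884.IC Pool.Agent.Y63.AWC
open Pool.Agent.X209.PJ Pool.Agent.X209.CC

set_option linter.unusedSectionVars false
set_option linter.unusedVariables false

noncomputable section

namespace Pool.Agent.X209.NB

/-! ### The number of the characters over a linear character of a central subgroup -/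

section count

variable {J W : Type} [Group J] [Fintype J] [Group W] [Fintype W]

lemma sum_lin (i : W →* J) (hi : ∀ w g, i w * g = g * i w) (lam : W →* ℂˣ) {χ : J → ℂ}
    (h : IsIrrChar χ) : ∑ w : W, ((lam w⁻¹ : ℂˣ) : ℂ) * (χ (i w) / χ 1) =
      if OverI i lam χ then (Nat.card W : ℂ) else 0 := by
  obtain ⟨om, hom⟩ := exists_overI i hi h
  have h1 : ∀ w, χ (i w) / χ 1 = (om w : ℂ) := fun w => overI_val h hom w
  have h2 : ∑ w : W, ((lam w⁻¹ : ℂˣ) : ℂ) * (χ (i w) / χ 1) =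
      ∑ w : W, ((Units.coeHom ℂ).comp (lam⁻¹ * om)) w := by
    refine Finset.sum_congr rfl fun w _ => ?_
    rw [h1]
    change _ = (((lam w)⁻¹ * om w : ℂˣ) : ℂ)
    rw [map_inv, Units.val_mul]
  rw [h2, sum_hom_units]
  have h3 : (Units.coeHom ℂ).comp (lam⁻¹ * om) = 1 ↔ OverI i lam χ := by
    constructor
    · intro h4
      have h5 : lam = om := by
        ext w
        have h6 := congrArg (fun f : W →* ℂ => f w) h4
        have h7 : (((lam w)⁻¹ * om w : ℂˣ) : ℂ) = 1 := h6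
        have h8 : (lam w)⁻¹ * om w = 1 := Units.ext h7
        rw [inv_mul_eq_one] at h8
        rw [h8]
      rw [h5]
      exact hom
    · intro h4
      have h5 := overI_unique h h4 hom
      rw [h5]
      ext w
      change (((om w)⁻¹ * om w : ℂˣ) : ℂ) = 1
      rw [inv_mul_cancel, Units.val_one]
  by_cases h4 : OverI i lam χ
  · rw [if_pos h4, if_pos (h3.mpr h4), Nat.card_eq_fintype_card]
  · rw [if_neg h4, if_neg (fun h5 => h4 (h3.mp h5)), Nat.cast_zero]

lemma cnt_filter (i : W →* J) (lam : W →* ℂˣ) :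
    cnt i (fun _ => True) lam = ((Irr J).filter fun χ => OverI i lam χ).card := by
  unfold cnt
  have h : ∀ χ : J → ℂ, (IsIrrChar χ ∧ OverI i lam χ ∧ True) ↔
      χ ∈ (Irr J).filter fun χ => OverI i lam χ := by
    intro χ
    rw [Finset.mem_filter, mem_Irr]
    tauto
  exact (Nat.card_congr (Equiv.subtypeEquivRight h)).trans
    (Nat.card_eq_fintype_card.trans (Fintype.card_coe _))

theorem count_over (i : W →* J) (hi : ∀ w g, i w * g = g * i w) (lam : W →* ℂˣ) :
    (Nat.card W : ℂ) * ((Nat.card J : ℂ) * (cnt i (fun _ => True) lam : ℂ)) =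
      ∑ x : J, ∑ y : J, ∑ w : W,
        if i w = x * y * x⁻¹ * y⁻¹ then ((lam w : ℂˣ) : ℂ) else 0 := by
  have hJ : (Nat.card J : ℂ) ≠ 0 := by exact_mod_cast Nat.card_pos.ne'
  have h1 : ∀ χ ∈ Irr J, (Nat.card W : ℂ) * ((Nat.card J : ℂ) *
      (if OverI i lam χ then 1 else 0)) =
      ∑ w : W, ((lam w⁻¹ : ℂˣ) : ℂ) * ∑ x : J, χ (i w * x) * χ x⁻¹ := by
    intro χ hχ
    have hχ' := mem_Irr.mp hχ
    have h2 := sum_lin i hi lam hχ'
    have h3 := B_irr hχ' hχ'
    rw [if_pos rfl] at h3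
    unfold B at h3
    have h4 : ∑ g : J, χ g * χ g⁻¹ = (Nat.card J : ℂ) := by
      field_simp at h3
      exact h3
    have h5 : ∀ w : W, ∑ x : J, χ (i w * x) * χ x⁻¹ = χ (i w) / χ 1 * (Nat.card J : ℂ) := by
      intro w
      rw [← h4, Finset.mul_sum]
      refine Finset.sum_congr rfl fun x _ => ?_
      rw [central_char hχ' (hi w) x]
      ring
    rw [Finset.sum_congr rfl fun w _ => by rw [h5 w, ← mul_assoc], ← Finset.sum_mul, h2]
    split_ifs <;> ring
  have h2 : ((cnt i (fun _ => True) lam : ℕ) : ℂ) =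
      ∑ χ ∈ Irr J, if OverI i lam χ then (1 : ℂ) else 0 := by
    rw [cnt_filter, Finset.sum_boole]
  rw [h2, Finset.mul_sum, Finset.mul_sum, Finset.sum_congr rfl h1]
  have h3 : ∑ χ ∈ Irr J, ∑ w : W, ((lam w⁻¹ : ℂˣ) : ℂ) * ∑ x : J, χ (i w * x) * χ x⁻¹ =
      ∑ w : W, ((lam w⁻¹ : ℂˣ) : ℂ) * ∑ x : J, ∑ χ ∈ Irr J, χ (i w * x) * χ x⁻¹ := by
    rw [Finset.sum_comm]
    refine Finset.sum_congr rfl fun w _ => ?_
    rw [← Finset.mul_sum, Finset.sum_comm]
  rw [h3]
  have h4 : ∀ (w : W) (x : J), ∑ χ ∈ Irr J, χ (i w * x) * χ x⁻¹ =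
      ∑ n : J, if i w⁻¹ = n * x * n⁻¹ * x⁻¹ then (1 : ℂ) else 0 := by
    intro w x
    rw [col_orth, Nat.card_eq_fintype_card, Fintype.card_subtype, Finset.sum_boole]
    congr 2
    ext n
    simp only [Finset.mem_filter, Finset.mem_univ, true_and]
    have key : n * (i w * x) * n⁻¹ = i w * (n * x * n⁻¹) := by
      rw [← mul_assoc n, ← hi w n]
      simp only [mul_assoc]
    rw [map_inv, key]
    constructor
    · intro h
      rw [inv_eq_iff_eq_inv, eq_comm, inv_eq_iff_eq_inv]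
      have h5 : n * x * n⁻¹ = (i w)⁻¹ * x := by
        rw [eq_inv_mul_iff_mul_eq]
        exact h
      rw [h5]
      group
    · intro h
      have h5 : (i w)⁻¹ * x = n * x * n⁻¹ := by
        rw [h]
        group
      rw [← h5]
      group
  have h5 : ∑ w : W, ((lam w⁻¹ : ℂˣ) : ℂ) * ∑ x : J, ∑ χ ∈ Irr J, χ (i w * x) * χ x⁻¹ =
      ∑ w : W, ((lam w : ℂˣ) : ℂ) * ∑ x : J, ∑ n : J,
        if i w = n * x * n⁻¹ * x⁻¹ then (1 : ℂ) else 0 := by
    rw [← Equiv.sum_comp (Equiv.inv W)]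
    refine Finset.sum_congr rfl fun w _ => ?_
    rw [Equiv.inv_apply, inv_inv]
    congr 1
    refine Finset.sum_congr rfl fun x _ => ?_
    rw [h4, inv_inv]
  rw [h5]
  have h6 : ∀ w : W, ((lam w : ℂˣ) : ℂ) * ∑ x : J, ∑ n : J,
      (if i w = n * x * n⁻¹ * x⁻¹ then (1 : ℂ) else 0) =
      ∑ x : J, ∑ y : J, if i w = x * y * x⁻¹ * y⁻¹ then ((lam w : ℂˣ) : ℂ) else 0 := by
    intro w
    rw [Finset.sum_comm, Finset.mul_sum]
    refine Finset.sum_congr rfl fun x _ => ?_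
    rw [Finset.mul_sum]
    refine Finset.sum_congr rfl fun y _ => ?_
    split_ifs
    · rw [mul_one]
    · rw [mul_zero]
  rw [Finset.sum_congr rfl fun w _ => h6 w, Finset.sum_comm]
  refine Finset.sum_congr rfl fun x _ => ?_
  rw [Finset.sum_comm]

end count

/-! ### The Euler characteristic -/

section euler

variable {p : ℕ} {G : Type} [Group G] [Finite G] {Z : Subgroup G}

/-- The equivariant Euler characteristic of the poset of the nontrivial `p`-subgroups with discrete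
torsion: `(|G| |Z|)⁻¹ ∑ lam([x, y]) χ(X^⟨x, y⟩)` over the pairs `(x, y)` with `[x, y] ∈ Z`. -/
def chi2Tw (p : ℕ) {G : Type} [Group G] {Z : Subgroup G} (lam : Z →* ℂˣ) : ℂ :=
  (∑ᶠ q : {q : G × G // q.1 * q.2 * q.1⁻¹ * q.2⁻¹ ∈ Z}, ((lam ⟨_, q.2⟩ : ℂˣ) : ℂ) *
    (eulerChar (fixedPoset p ({q.1.1, q.1.2} : Set G)) : ℂ)) /
      ((Nat.card G : ℂ) * (Nat.card Z : ℂ))

/-- The number of the irreducible characters of `G` over `lam`. -/
def kTw {G : Type} [Group G] {Z : Subgroup G} (lam : Z →* ℂˣ) : ℕ :=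
  Nat.card {χ : G → ℂ // IsIrrChar χ ∧ ∀ (z : Z) (x : G), χ (z * x) = (lam z : ℂ) * χ x}

/-- The number of the irreducible characters of `G` over `lam` of `p`-defect zero. -/
def zTw (p : ℕ) {G : Type} [Group G] {Z : Subgroup G} (lam : Z →* ℂˣ) : ℕ :=
  Nat.card {χ : G → ℂ // IsIrrChar χ ∧ (∀ (z : Z) (x : G), χ (z * x) = (lam z : ℂ) * χ x) ∧
    ∃ n : ℕ, χ 1 = (n : ℂ) ∧ n.factorization p = (Nat.card G).factorization p}

lemma kTw_eq (lam : Z →* ℂˣ) : kTw lam = cnt Z.subtype (fun _ => True) lam := by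
  unfold kTw cnt
  refine Nat.card_congr (Equiv.subtypeEquivRight fun χ => ?_)
  refine and_congr_right fun _ => ?_
  constructor
  · intro h
    exact ⟨h, trivial⟩
  · intro h
    exact h.1

/-- the weight of a pair -/
def tw [Fintype Z] (lam : Z →* ℂˣ) (x y : G) : ℂ :=
  ∑ w : Z, if (w : G) = x * y * x⁻¹ * y⁻¹ then ((lam w : ℂˣ) : ℂ) else 0

lemma sum_tw [Fintype G] [Fintype Z] (lam : Z →* ℂˣ) (F : G → G → ℂ) :
    ∑ x : G, ∑ y : G, tw lam x y * F x y =
      ∑ᶠ q : {q : G × G // q.1 * q.2 * q.1⁻¹ * q.2⁻¹ ∈ Z},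
        ((lam ⟨_, q.2⟩ : ℂˣ) : ℂ) * F q.1.1 q.1.2 := by
  have : Fintype {q : G × G // q.1 * q.2 * q.1⁻¹ * q.2⁻¹ ∈ Z} := Fintype.ofFinite _
  rw [finsum_eq_sum_of_fintype, ← Fintype.sum_prod_type']
  have h1 : ∀ q : G × G, tw lam q.1 q.2 = if h : q.1 * q.2 * q.1⁻¹ * q.2⁻¹ ∈ Z then
      ((lam ⟨_, h⟩ : ℂˣ) : ℂ) else 0 := by
    intro q
    unfold tw
    split_ifs with h
    · rw [Finset.sum_eq_single ⟨_, h⟩]
      · rw [if_pos rfl]
      · intro w _ hw
        rw [if_neg]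
        intro h2
        exact hw (Subtype.ext h2)
      · intro h2
        exact absurd (Finset.mem_univ _) h2
    · refine Finset.sum_eq_zero fun w _ => ?_
      rw [if_neg]
      intro h2
      exact h (h2 ▸ w.2)
  have h2 : ∑ q : G × G, tw lam q.1 q.2 * F q.1 q.2 =
      ∑ q ∈ Finset.univ.filter (fun q : G × G => q.1 * q.2 * q.1⁻¹ * q.2⁻¹ ∈ Z),
        tw lam q.1 q.2 * F q.1 q.2 := by
    symm
    apply Finset.sum_filter_of_ne
    intro q _ hq
    by_contra h
    apply hq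
    rw [h1, dif_neg h, zero_mul]
  rw [h2, Finset.sum_subtype (Finset.univ.filter
    (fun q : G × G => q.1 * q.2 * q.1⁻¹ * q.2⁻¹ ∈ Z))
    (p := fun q : G × G => q.1 * q.2 * q.1⁻¹ * q.2⁻¹ ∈ Z) (by simp)]
  refine Finset.sum_congr rfl fun q _ => ?_
  rw [h1, dif_pos q.2]

lemma isChainAbove_bot {σ : Set (Subgroup G)} : IsChainAbove p ⊥ σ ↔ IsPChain p σ := by
  constructor
  · intro h
    exact h.pchain
  · intro h
    exact ⟨h.chain, fun P hP => ⟨h.isPGroup P hP, bot_lt_iff_ne_bot.mpr (h.ne_bot P hP)⟩⟩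

lemma W_above (K : Set G) [Fintype {σ : Set (Subgroup G) // IsChainAbove p ⊥ σ}] :
    W p K = ∑ σ : {σ : Set (Subgroup G) // IsChainAbove p ⊥ σ},
      (-1 : ℤ) ^ σ.1.ncard * (if ∀ P ∈ σ.1, ∀ x ∈ K, conjSub x P = P then 1 else 0) := by
  have : Fintype {σ : Set (Subgroup G) // IsPChain p σ} := Fintype.ofFinite _
  unfold W
  rw [finsum_eq_sum_of_fintype]
  exact (Fintype.sum_equiv (Equiv.subtypeEquivRight fun σ => isChainAbove_bot) _ _
    fun σ => rfl).symm

/-- `|Z| |H|` times the number of the characters of a chain stabiliser `H` over `lam` -/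
lemma card_mul_kOver [Fintype G] [Fintype Z] (hZ : Z ≤ Subgroup.center G) (lam : Z →* ℂˣ)
    (σ : Set (Subgroup G)) :
    (Nat.card Z : ℂ) * ((Nat.card (chainStabilizer σ) : ℂ) *
        (kOver (fun _ _ => True) lam σ : ℂ)) =
      ∑ x : G, ∑ y : G, tw lam x y *
        (if ∀ P ∈ σ, ∀ z ∈ ({x, y} : Set G), conjSub z P = P then 1 else 0) := by
  have : Fintype (chainStabilizer σ) := Fintype.ofFinite _
  rw [kOver_eq hZ, count_over (inc hZ σ) (inc_comm hZ σ) lam]
  trans ∑ x : chainStabilizer σ, ∑ y : chainStabilizer σ, tw lam (x : G) (y : G)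
  · refine Finset.sum_congr rfl fun x _ => Finset.sum_congr rfl fun y _ =>
      Finset.sum_congr rfl fun w _ => ?_
    by_cases h : (w : G) = x * y * (x : G)⁻¹ * (y : G)⁻¹
    · rw [if_pos h, if_pos (Subtype.ext h)]
    · rw [if_neg h, if_neg (fun h' => h (congrArg Subtype.val h'))]
  have h2 : ∀ x y : G, (∀ P ∈ σ, ∀ z ∈ ({x, y} : Set G), conjSub z P = P) ↔
      x ∈ chainStabilizer σ ∧ y ∈ chainStabilizer σ := by
    intro x y
    rw [mem_chainStabilizer, mem_chainStabilizer]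
    constructor
    · intro h
      exact ⟨fun P hP => h P hP x (Or.inl rfl), fun P hP => h P hP y (Or.inr rfl)⟩
    · rintro ⟨h3, h4⟩ P hP z (rfl | rfl)
      · exact h3 P hP
      · exact h4 P hP
  simp only [h2]
  have h3 : ∀ f : G → ℂ, ∑ x : chainStabilizer σ, f x =
      ∑ x : G, if x ∈ chainStabilizer σ then f x else 0 := by
    intro f
    rw [← Finset.sum_filter]
    exact (Finset.sum_subtype (Finset.univ.filter fun x : G => x ∈ chainStabilizer σ)
      (p := fun x : G => x ∈ chainStabilizer σ) (by simp) f).symm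
  rw [h3 (fun x => ∑ y : chainStabilizer σ, tw lam x (y : G))]
  refine Finset.sum_congr rfl fun x _ => ?_
  rw [h3 (fun y => tw lam x y)]
  by_cases hx : x ∈ chainStabilizer σ
  · rw [if_pos hx]
    refine Finset.sum_congr rfl fun y _ => ?_
    by_cases hy : y ∈ chainStabilizer σ
    · rw [if_pos hy, if_pos ⟨hx, hy⟩, mul_one]
    · rw [if_neg hy, if_neg (fun h => hy h.2), mul_zero]
  · rw [if_neg hx]
    symm
    refine Finset.sum_eq_zero fun y _ => ?_
    rw [if_neg (fun h => hx h.1), mul_zero]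

/-- **The Euler characteristic with discrete torsion as an alternating sum.** -/
theorem chi2Tw_eq [hp : Fact p.Prime] (hZ : Z ≤ Subgroup.center G) (lam : Z →* ℂˣ) :
    (kTw lam : ℂ) - chi2Tw p lam =
      ((altC p (⊥ : Subgroup G) (fun σ => (kOver (fun _ _ => True) lam σ : ℤ)) : ℤ) : ℂ) := by
  have : Fintype G := Fintype.ofFinite G
  have : Fintype Z := Fintype.ofFinite Z
  have : Fintype {σ : Set (Subgroup G) // IsChainAbove p ⊥ σ} := Fintype.ofFinite _
  have hG0 : (Nat.card G : ℂ) ≠ 0 := by exact_mod_cast Nat.card_pos.ne'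
  have hZ0 : (Nat.card Z : ℂ) ≠ 0 := by exact_mod_cast Nat.card_pos.ne'
  have hN : Natural p (⊥ : Subgroup G) (fun _ _ => True) := fun _ _ _ _ _ _ => trivial
  have h1 := card_mul_altC (p := p) (A := (⊥ : Subgroup G))
    (fun σ => (kOver (fun _ _ => True) lam σ : ℤ))
    (fun g σ hσ => by rw [kOver_conj hZ hN lam g σ hσ])
  have h2 := congrArg (Int.cast : ℤ → ℂ) h1
  push_cast at h2
  have h3 : (Nat.card Z : ℂ) * ((Nat.card G : ℂ) *
      ((altC p (⊥ : Subgroup G) (fun σ => (kOver (fun _ _ => True) lam σ : ℤ)) : ℤ) : ℂ)) =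
      ∑ x : G, ∑ y : G, tw lam x y * ((W p ({x, y} : Set G) : ℤ) : ℂ) := by
    rw [h2, Finset.mul_sum]
    have h4 : ∀ σ : {σ : Set (Subgroup G) // IsChainAbove p ⊥ σ},
        (Nat.card Z : ℂ) * ((-1) ^ σ.1.ncard * ((Nat.card (chainStabilizer σ.1) : ℂ) *
          (kOver (fun _ _ => True) lam σ.1 : ℂ))) =
        ∑ x : G, ∑ y : G, tw lam x y * ((-1) ^ σ.1.ncard *
          (if ∀ P ∈ σ.1, ∀ z ∈ ({x, y} : Set G), conjSub z P = P then 1 else 0)) := by
      intro σ
      have h5 := card_mul_kOver hZ lam σ.1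
      have h6 : (Nat.card Z : ℂ) * ((-1) ^ σ.1.ncard * ((Nat.card (chainStabilizer σ.1) : ℂ) *
          (kOver (fun _ _ => True) lam σ.1 : ℂ))) = (-1) ^ σ.1.ncard * ((Nat.card Z : ℂ) *
          ((Nat.card (chainStabilizer σ.1) : ℂ) * (kOver (fun _ _ => True) lam σ.1 : ℂ))) := by
        ring
      rw [h6, h5, Finset.mul_sum]
      refine Finset.sum_congr rfl fun x _ => ?_
      rw [Finset.mul_sum]
      refine Finset.sum_congr rfl fun y _ => ?_
      ring
    rw [Finset.sum_congr rfl fun σ _ => h4 σ, Finset.sum_comm]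
    refine Finset.sum_congr rfl fun x _ => ?_
    rw [Finset.sum_comm]
    refine Finset.sum_congr rfl fun y _ => ?_
    rw [← Finset.mul_sum, W_above]
    push_cast
    rfl
  have h4 : (Nat.card Z : ℂ) * ((Nat.card G : ℂ) * (kTw lam : ℂ)) =
      ∑ x : G, ∑ y : G, tw lam x y := by
    rw [kTw_eq, count_over Z.subtype (fun w g => (Subgroup.mem_center_iff.mp (hZ w.2) g).symm) lam]
    rfl
  have h5 : ((Nat.card G : ℂ) * (Nat.card Z : ℂ)) * chi2Tw p lam =
      ∑ x : G, ∑ y : G, tw lam x y *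
        ((eulerChar (fixedPoset p ({x, y} : Set G)) : ℤ) : ℂ) := by
    rw [sum_tw lam (fun x y => ((eulerChar (fixedPoset p ({x, y} : Set G)) : ℤ) : ℂ))]
    unfold chi2Tw
    rw [mul_div_cancel₀ _ (mul_ne_zero hG0 hZ0)]
  have h6 : ∑ x : G, ∑ y : G, tw lam x y * ((W p ({x, y} : Set G) : ℤ) : ℂ) =
      ∑ x : G, ∑ y : G, tw lam x y - ∑ x : G, ∑ y : G, tw lam x y *
        ((eulerChar (fixedPoset p ({x, y} : Set G)) : ℤ) : ℂ) := by
    rw [← Finset.sum_sub_distrib]
    refine Finset.sum_congr rfl fun x _ => ?_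
    rw [← Finset.sum_sub_distrib]
    refine Finset.sum_congr rfl fun y _ => ?_
    rw [W_eq]
    push_cast
    ring
  rw [h6, ← h4, ← h5] at h3
  have h7 : ((Nat.card Z : ℂ) * (Nat.card G : ℂ)) *
      ((altC p (⊥ : Subgroup G) (fun σ => (kOver (fun _ _ => True) lam σ : ℤ)) : ℤ) : ℂ) =
      ((Nat.card Z : ℂ) * (Nat.card G : ℂ)) * ((kTw lam : ℂ) - chi2Tw p lam) := by
    linear_combination h3
  exact (mul_left_cancel₀ (mul_ne_zero hZ0 hG0) h7).symm

end euler

end Pool.Agent.X209.NB
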