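import Pool.Agent.X209.NB.Tor
import Pool.Agent.X209.DI.Congr

/-!
# The Knörr–Robinson conjecture with discrete torsion
-/

open scoped Classical BigOperators
open Pool.Agent.Y63.KR Pool.Agent.Helper884.IC Pool.Agent.Y63.AWC
open Pool.Agent.X209.PJ Pool.Agent.X209.CC
open Pool.Agent.X209.DI (krDefect kd aK krDefect_eq KRC_congr)

set_option linter.unusedSectionVars false
set_option linter.unusedVariables false

noncomputable section

namespace Pool.Agent.X209.NB

/-- the trivial family -/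
def famTrue {G : Type} [Group G] : Fam G := fun _ _ => True

section link

variable {p : ℕ} {G : Type} [Group G] [Finite G]

lemma card_irr (J : Type) [Group J] [Finite J] :
    Nat.card {χ : J → ℂ // IsIrrChar χ ∧ True} = Nat.card (ConjClasses J) := by
  have : Fintype J := Fintype.ofFinite J
  rw [← surfaceCount_one, surfaceCount_eq (G := J) 0]
  unfold zsum
  simp only [mul_zero, pow_zero, Finset.sum_const, smul_eq_mul, mul_one]
  have h : ∀ χ : J → ℂ, (IsIrrChar χ ∧ True) ↔ χ ∈ Irr J := by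
    intro χ
    rw [mem_Irr, and_true]
  exact (Nat.card_congr (Equiv.subtypeEquivRight h)).trans
    (Nat.card_eq_fintype_card.trans (Fintype.card_coe _))

lemma altC_all [Fact p.Prime] :
    altC p (⊥ : Subgroup G) (fun σ => (kAll famTrue σ : ℤ)) = aK p G := by
  have : Fintype {σ : Set (Subgroup G) // IsChainAbove p ⊥ σ} := Fintype.ofFinite _
  have : Fintype {σ : Set (Subgroup G) // IsPChain p σ} := Fintype.ofFinite _
  have h1 := card_mul_altC (p := p) (A := (⊥ : Subgroup G))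
    (fun σ => (kAll famTrue σ : ℤ))
    (fun g σ hσ => by rw [kAll_conj (p := p) (A := (⊥ : Subgroup G))
      (fun _ _ _ _ _ _ => trivial) g σ hσ])
  have hiso : IsoInv (G := G) (fun H => (Nat.card (ConjClasses H) : ℤ)) := by
    rintro H K ⟨e⟩
    change (Nat.card (ConjClasses H) : ℤ) = (Nat.card (ConjClasses K) : ℤ)
    rw [← surfaceCount_one, ← surfaceCount_one, surfaceCount_congr e]
  have h2 := card_mul_alternatingSum (p := p) (G := G) _ hiso
  have h3 : ∑ σ : {σ : Set (Subgroup G) // IsChainAbove p ⊥ σ},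
        (-1 : ℤ) ^ σ.1.ncard * ((Nat.card (chainStabilizer σ.1) : ℤ) * (kAll famTrue σ.1 : ℤ)) =
      ∑ σ : {σ : Set (Subgroup G) // IsPChain p σ},
        (-1 : ℤ) ^ σ.1.ncard * ((Nat.card (chainStabilizer σ.1) : ℤ) *
          (Nat.card (ConjClasses (chainStabilizer σ.1)) : ℤ)) := by
    refine Fintype.sum_equiv (Equiv.subtypeEquivRight fun σ => isChainAbove_bot) _ _ fun σ => ?_
    have h4 : kAll famTrue σ.1 = Nat.card (ConjClasses (chainStabilizer σ.1)) := card_irr _
    rw [h4]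
    rfl
  rw [h3, ← h2] at h1
  have h5 : (Nat.card G : ℤ) ≠ 0 := by exact_mod_cast Nat.card_pos.ne'
  exact mul_left_cancel₀ h5 h1

end link

section main

variable {p : ℕ} {G : Type} [Group G] [Finite G] {Z : Subgroup G}

/-- degree of defect zero -/
def QZ (p : ℕ) (G : Type) [Group G] (χ : G → ℂ) : Prop :=
  ∃ n : ℕ, χ 1 = (n : ℂ) ∧ n.factorization p = (Nat.card G).factorization p

lemma QZ_stable : Stable (QZ p G) := by
  rintro τ χ _ ⟨n, h1, h2⟩
  exact ⟨n, by change τ (χ 1) = _; rw [h1, map_natCast], h2⟩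

lemma zTw_eq (lam : Z →* ℂˣ) : zTw p lam = cnt Z.subtype (QZ p G) lam := rfl

/-- the defect -/
def dTw (p : ℕ) {G : Type} [Group G] {Z : Subgroup G} (lam : Z →* ℂˣ) : ℤ :=
  altC p (⊥ : Subgroup G) (fun σ => (kOver famTrue lam σ : ℤ)) - (zTw p lam : ℤ)

lemma dTw_eq [Fact p.Prime] (hZ : Z ≤ Subgroup.center G) (lam : Z →* ℂˣ) :
    (kTw lam : ℂ) - (zTw p lam : ℂ) - chi2Tw p lam = (dTw p lam : ℂ) := by
  have h := chi2Tw_eq (p := p) hZ lam
  unfold dTw
  push_cast
  have h2 : ((altC p (⊥ : Subgroup G) (fun σ => (kOver famTrue lam σ : ℤ)) : ℤ) : ℂ) =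
      (kTw lam : ℂ) - chi2Tw p lam := h.symm
  rw [h2]
  ring

lemma dTw_ker [Fact p.Prime] (hZ : Z ≤ Subgroup.center G) {lam mu : Z →* ℂˣ}
    (h : lam.ker = mu.ker) : dTw p lam = dTw p mu := by
  unfold dTw
  rw [zTw_eq, zTw_eq, cnt_ker Z.subtype QZ_stable h]
  congr 1
  exact altC_congr fun σ hσ => by
    rw [kOver_ker (p := p) (A := (⊥ : Subgroup G)) hZ
      (fun _ _ _ _ _ _ => trivial : GalStable p (⊥ : Subgroup G) famTrue) h hσ]

lemma sylow_bot [hp : Fact p.Prime] (hpZ : ¬ p ∣ Nat.card Z) :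
    IsSylowOf p (⊥ : Subgroup G) Z := by
  refine ⟨bot_le, IsPGroup.of_bot, ?_⟩
  rw [Subgroup.card_bot, Nat.factorization_one, Finsupp.zero_apply,
    Nat.factorization_eq_zero_of_not_dvd hpZ]

theorem sum_zTw [hp : Fact p.Prime] [Fintype (Z →* ℂˣ)] (hZ : Z ≤ Subgroup.center G)
    (hpZ : ¬ p ∣ Nat.card Z) (Y : Subgroup G) (hY : Y ≤ Z) (hYn : Y.Normal) :
    ∑ lam ∈ LamW (Y.subgroupOf Z), zTw p lam = numDefectZero p (G ⧸ Y) := by
  rw [Finset.sum_congr rfl fun lam _ => zTw_eq lam,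
    ← cntTriv_eq Z.subtype (fun w g => (Subgroup.mem_center_iff.mp (hZ w.2) g).symm) (QZ p G),
    cnt_infl (QuotientGroup.mk' Y) (QuotientGroup.mk'_surjective Y) Z.subtype (Y.subgroupOf Z)
      (by rw [QuotientGroup.ker_mk', Subgroup.map_subgroupOf_eq_of_le hY])]
  unfold numDefectZero
  refine Nat.card_congr (Equiv.subtypeEquivRight fun ψ => ?_)
  refine and_congr_right fun _ => ?_
  have h1 : (Nat.card G).factorization p = (Nat.card (G ⧸ Y)).factorization p := by
    rw [Subgroup.card_eq_card_quotient_mul_card_subgroup Y,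
      Nat.factorization_mul Nat.card_pos.ne' Nat.card_pos.ne', Finsupp.add_apply]
    have h2 : ¬ p ∣ Nat.card Y := fun h => hpZ (h.trans (Subgroup.card_dvd_of_le hY))
    rw [Nat.factorization_eq_zero_of_not_dvd h2, add_zero]
  unfold QZ
  rw [h1]
  rfl

theorem sum_dTw [hp : Fact p.Prime] [Fintype (Z →* ℂˣ)] (hZ : Z ≤ Subgroup.center G)
    (hpZ : ¬ p ∣ Nat.card Z) (Y : Subgroup G) (hY : Y ≤ Z) (hYn : Y.Normal) :
    ∑ lam ∈ LamW (Y.subgroupOf Z), dTw p lam = kd p (G ⧸ Y) := by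
  have h1 := altC_sum_over (p := p) (QuotientGroup.mk' Y) (QuotientGroup.mk'_surjective Y) hZ
    (sylow_bot hpZ) (by rw [QuotientGroup.ker_mk']; exact hY) (Q := famTrue) (Q' := famTrue)
    (fun _ _ _ _ _ _ => trivial) (fun _ _ _ _ _ _ => trivial) (fun _ _ _ _ => Iff.rfl)
  rw [QuotientGroup.ker_mk', Subgroup.map_bot, altC_all] at h1
  unfold dTw
  rw [Finset.sum_sub_distrib, h1, ← Nat.cast_sum, sum_zTw hZ hpZ Y hY hYn]
  rfl

/-- `KRC` with discrete torsion -/
def TwKRC (p : ℕ) {G : Type} [Group G] {Z : Subgroup G} (lam : Z →* ℂˣ) : Prop :=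
  chi2Tw p lam = (kTw lam : ℂ) - (zTw p lam : ℂ)

lemma twKRC_iff [Fact p.Prime] (hZ : Z ≤ Subgroup.center G) (lam : Z →* ℂˣ) :
    TwKRC p lam ↔ dTw p lam = 0 := by
  have h := dTw_eq (p := p) hZ lam
  unfold TwKRC
  constructor
  · intro h1
    rw [h1, sub_self] at h
    exact_mod_cast h.symm
  · intro h1
    rw [h1, Int.cast_zero, sub_eq_zero] at h
    exact h.symm

lemma KRC_iff [Fact p.Prime] (H : Type) [Group H] [Finite H] : KRC p H ↔ kd p H = 0 := by
  have : Fintype H := Fintype.ofFinite H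
  have h := krDefect_eq (p := p) (A := H)
  unfold krDefect at h
  unfold KRC
  constructor
  · intro h1
    rw [h1] at h
    have h2 : ((kd p H : ℤ) : ℚ) = 0 := by
      rw [← h]
      ring
    exact_mod_cast h2
  · intro h1
    rw [h1, Int.cast_zero] at h
    linarith

theorem tw_formula [hp : Fact p.Prime] (hZ : Z ≤ Subgroup.center G) (hpZ : ¬ p ∣ Nat.card Z)
    (lam : Z →* ℂˣ) (hN : ∀ m : ℕ, (kerG (lam ^ m)).Normal) :
    (Nat.totient (orderOf lam) : ℤ) * dTw p lam =
      ∑ m ∈ (orderOf lam).divisors, ArithmeticFunction.moebius m *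
        kd p (G ⧸ kerG (lam ^ m)) := by
  have : Fintype (Z →* ℂˣ) := Fintype.ofFinite _
  rw [moebius_formula (fun lam : Z →* ℂˣ => dTw p lam) (fun lam mu h => dTw_ker hZ h) lam]
  refine Finset.sum_congr rfl fun m _ => ?_
  congr 1
  have h := sum_dTw (p := p) hZ hpZ (kerG (lam ^ m)) (kerG_le _) (hN m)
  rw [subgroupOf_kerG] at h
  exact h

theorem tw_local [hp : Fact p.Prime] (hZ : Z ≤ Subgroup.center G) (hpZ : ¬ p ∣ Nat.card Z) :
    (∀ lam : Z →* ℂˣ, TwKRC p lam) ↔
      ∀ Y : Subgroup G, Y ≤ Z → ∀ _ : Y.Normal, KRC p (G ⧸ Y) := by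
  have : Fintype (Z →* ℂˣ) := Fintype.ofFinite _
  constructor
  · intro h Y hY hYn
    rw [KRC_iff, ← sum_dTw hZ hpZ Y hY hYn]
    exact Finset.sum_eq_zero fun lam _ => (twKRC_iff hZ lam).mp (h lam)
  · intro h lam
    rw [twKRC_iff hZ]
    have hN : ∀ m : ℕ, (kerG (lam ^ m)).Normal :=
      fun m => normal_of_center ((kerG_le _).trans hZ)
    have h1 := tw_formula hZ hpZ lam hN
    rw [Finset.sum_eq_zero (fun m _ => by
      rw [(KRC_iff (G ⧸ kerG (lam ^ m))).mp (h _ (kerG_le _) (hN m)), mul_zero])] at h1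
    refine (mul_eq_zero.mp h1).resolve_left ?_
    have h2 : 0 < Nat.totient (orderOf lam) := Nat.totient_pos.mpr (orderOf_pos lam)
    exact_mod_cast h2.ne'

end main

theorem tw_global {p : ℕ} [hp : Fact p.Prime] :
    (∀ (G : Type) [Group G] [Finite G], KRC p G) ↔
      ∀ (G : Type) [Group G] [Finite G] (Z : Subgroup G), Z ≤ Subgroup.center G →
        ¬ p ∣ Nat.card Z → ∀ lam : Z →* ℂˣ, TwKRC p lam := by
  constructor
  · intro h G _ _ Z hZ hpZ
    rw [tw_local hZ hpZ]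
    intro Y _ _
    exact h _
  · intro h G _ _
    have h1 := (tw_local (p := p) (G := G) (Z := ⊥) bot_le (by
      rw [Subgroup.card_bot]
      exact hp.out.one_lt.not_ge ∘ Nat.le_of_dvd one_pos)).mp (fun lam => h G ⊥ bot_le (by
        rw [Subgroup.card_bot]
        exact hp.out.one_lt.not_ge ∘ Nat.le_of_dvd one_pos) lam) ⊥ le_rfl inferInstance
    let _ := Fintype.ofFinite G
    exact (KRC_congr QuotientGroup.quotientBot).mp h1

end Pool.Agent.X209.NB
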